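import Pool.Agent.V7H65.SD.Struct

/-!
# Counting consequences, cyclic groups, strength four, and systems with a fixed point
-/

set_option autoImplicit false
set_option linter.unusedSectionVars false

namespace Pool.Agent.V7H65.SD

/-- The last divisibility condition. -/
theorem last_dvd {V : Type} [Finite V] {t k : ℕ} {𝓑 : Set (Set V)} (h : IsSteiner (t + 1) k 𝓑)
    (ht : t ≤ Nat.card V) : k - t ∣ Nat.card V - t := by
  obtain ⟨T0, hT0⟩ := exists_sub ht
  have h1 : ((Set.univ : Set V) \ T0).ncard = Nat.card V - t := by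
    rw [Set.ncard_sdiff (Set.subset_univ _), Set.ncard_univ, hT0]
  rw [← h1]
  refine dvd_of_classes (𝓒 := {C | ∃ B ∈ 𝓑, T0 ⊆ B ∧ C = B \ T0}) ?_ ?_ ?_ ?_
  · rintro _ ⟨B, -, -, rfl⟩
    exact fun z hz => ⟨Set.mem_univ z, hz.2⟩
  · rintro _ ⟨B, hB, hTB, rfl⟩
    rw [Set.ncard_sdiff hTB, h.1 B hB, hT0]
  · rintro x ⟨-, hx⟩
    obtain ⟨B, ⟨hB, hB'⟩, -⟩ := h.2 (insert x T0) (by rw [Set.ncard_insert_of_notMem hx, hT0])
    exact ⟨B \ T0, ⟨B, hB, (Set.subset_insert x T0).trans hB', rfl⟩,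
      hB' (Set.mem_insert x T0), hx⟩
  · rintro _ ⟨B, hB, hTB, rfl⟩ _ ⟨B', hB', hTB', rfl⟩ x hx hx'
    have : B = B' := by
      refine h.eq_of hB hB' (T := insert x T0) (Set.insert_subset hx.1 hTB)
        (Set.insert_subset hx'.1 hTB') ?_
      rw [Set.ncard_insert_of_notMem hx.2, hT0]
    rw [this]

variable {G : Type} [AddCommGroup G] [Finite G] {r k : ℕ} {𝓑 : Set (Set G)}

theorem count_refl (h : IsSteiner (2 * r) k 𝓑) (hT : TransInv 𝓑) (hN : NegInv 𝓑) (hr : 0 < r)
    (s : G) (X T0 : Set G) (hT0 : T0.ncard = 2 * (r - 1)) (hT0s : ∀ z ∈ T0, s - z ∈ T0)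
    (hX : ∀ z, z ∈ X ↔ z ∉ T0 ∧ s - z ≠ z)
    (hfix : ∀ B ∈ 𝓑, (∀ z ∈ B, s - z ∈ B) → ∀ z ∈ B, s - z ≠ z) :
    k - 2 * (r - 1) ∣ X.ncard := by
  have hcard : ∀ x, x ∈ X → (insert x (insert (s - x) T0)).ncard = 2 * r := by
    intro x hx
    obtain ⟨hx1, hx2⟩ := (hX x).1 hx
    have h1 : s - x ∉ T0 := fun h2 => hx1 (by simpa using hT0s _ h2)
    rw [Set.ncard_insert_of_notMem, Set.ncard_insert_of_notMem h1, hT0]
    · omega
    · simp only [Set.mem_insert_iff, not_or]
      exact ⟨hx2.symm, hx1⟩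
  refine dvd_of_classes
    (𝓒 := {C | ∃ B ∈ 𝓑, T0 ⊆ B ∧ (∀ z ∈ B, s - z ∈ B) ∧ C = B \ T0}) ?_ ?_ ?_ ?_
  · rintro _ ⟨B, hB, -, hs, rfl⟩ z hz
    exact (hX z).2 ⟨hz.2, hfix B hB hs z hz.1⟩
  · rintro _ ⟨B, hB, hTB, -, rfl⟩
    rw [Set.ncard_sdiff hTB, h.1 B hB, hT0]
  · intro x hx
    obtain ⟨B, hB, hTB, hs⟩ := sym_block h hT hN s (hcard x hx) (by
      intro z hz
      simp only [Set.mem_insert_iff] at hz ⊢
      rcases hz with rfl | rfl | hz
      · exact Or.inr (Or.inl rfl)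
      · exact Or.inl (by simp)
      · exact Or.inr (Or.inr (hT0s z hz)))
    refine ⟨B \ T0, ⟨B, hB, ?_, hs, rfl⟩, hTB (Set.mem_insert x _), ((hX x).1 hx).1⟩
    exact ((Set.subset_insert _ _).trans (Set.subset_insert _ _)).trans hTB
  · rintro _ ⟨B, hB, hTB, hs, rfl⟩ _ ⟨B', hB', hTB', hs', rfl⟩ x hx hx'
    have hxX : x ∈ X := (hX x).2 ⟨hx.2, hfix B hB hs x hx.1⟩
    have : B = B' := by
      refine h.eq_of hB hB' (T := insert x (insert (s - x) T0)) ?_ ?_ (hcard x hxX).ge
      · exact Set.insert_subset hx.1 (Set.insert_subset (hs x hx.1) hTB)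
      · exact Set.insert_subset hx'.1 (Set.insert_subset (hs' x hx'.1) hTB')
    rw [this]

theorem count_odd (h : IsSteiner (2 * r) k 𝓑) (hT : TransInv 𝓑) (hN : NegInv 𝓑) (hr : 0 < r)
    (hk : 2 * r < k) (hn : k < Nat.card G) (hG : Odd (Nat.card G)) (hke : Even k) :
    (k - 2 * r + 1) * (k - 2 * r + 2) ∣ Nat.card G - 2 * r + 1 := by
  obtain ⟨T0, h1, h2, h3⟩ := exists_inv_set (fun z : G => -z) (by simp) {0} (by simp)
    (fun z hz => neg_ne hG hz) (r - 1) (by rw [Set.ncard_singleton]; omega)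
  have h0 : (0 : G) ∉ T0 := fun h4 => Set.disjoint_left.1 h3 h4 rfl
  have h4 := count_refl h hT hN hr 0 (((Set.univ : Set G) \ T0) \ {0}) T0 h1 (by simpa using h2)
    (by
      intro z
      simp only [Set.mem_sdiff, Set.mem_univ, true_and, Set.mem_singleton_iff, zero_sub]
      constructor
      · rintro ⟨h5, h6⟩
        exact ⟨h5, fun h7 => h6 (neg_ne hG h7)⟩
      · rintro ⟨h5, h6⟩
        exact ⟨h5, fun h7 => h6 (by rw [h7, neg_zero])⟩) (by
      intro B hB hs z hz hz'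
      simp only [zero_sub] at hs hz'
      have h5 : z = 0 := neg_ne hG hz'
      subst h5
      have h6 := even_of_invol (B := B \ {0}) (fun z => -z) (by
        intro w hw
        exact ⟨hs w hw.1, by simpa using hw.2⟩) (by simp) (by
        intro w hw hw'
        exact hw.2 (neg_ne hG hw'))
      rw [Set.ncard_sdiff_singleton_of_mem hz, h.1 B hB] at h6
      rw [Nat.even_iff] at h6 hke
      omega)
  have h5 : (((Set.univ : Set G) \ T0) \ {0}).ncard = Nat.card G - 2 * r + 1 := by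
    have h6 : (0 : G) ∈ (Set.univ : Set G) \ T0 := ⟨Set.mem_univ _, h0⟩
    rw [Set.ncard_sdiff_singleton_of_mem h6,
      Set.ncard_sdiff (Set.subset_univ _), Set.ncard_univ, h1]
    omega
  rw [h5] at h4
  have h6 : k - (2 * r - 1) ∣ Nat.card G - (2 * r - 1) := by
    refine last_dvd (𝓑 := 𝓑) ?_ (by omega)
    rw [show 2 * r - 1 + 1 = 2 * r by omega]
    exact h
  rw [show k - (2 * r - 1) = k - 2 * r + 1 by omega,
    show Nat.card G - (2 * r - 1) = Nat.card G - 2 * r + 1 by omega] at h6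
  rw [show k - 2 * (r - 1) = k - 2 * r + 2 by omega] at h4
  refine Nat.Coprime.mul_dvd_of_dvd_of_dvd ?_ h6 h4
  rw [show k - 2 * r + 2 = (k - 2 * r + 1) + 1 by ring]
  simp

theorem count_even (h : IsSteiner (2 * r) k 𝓑) (hT : TransInv 𝓑) (hN : NegInv 𝓑) (hr : 0 < r)
    (hk : 2 * r < k) (hn : k < Nat.card G) (hG : Even (Nat.card G)) :
    Even k ∧ k - 2 * r + 2 ∣ Nat.card G - 2 * r + 2 := by
  constructor
  · by_contra hc
    rw [Nat.not_even_iff_odd] at hc
    have h1 := odd_card h hT hN (by omega) hc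
    exact (Nat.not_even_iff_odd.2 h1) hG
  · obtain ⟨s, hs⟩ := exists_not_double hG
    have hs' : ∀ z : G, s - z ≠ z := by
      intro z hz
      exact hs z (by nth_rw 1 [← hz]; abel)
    obtain ⟨T0, h1, h2, h3⟩ := exists_inv_set (fun z : G => s - z) (by simp) ∅ (by simp)
      (fun z hz => (hs' z hz).elim) (r - 1) (by rw [Set.ncard_empty]; omega)
    have h4 := count_refl h hT hN hr s ((Set.univ : Set G) \ T0) T0 h1 h2
      (by
        intro z
        simp only [Set.mem_sdiff, Set.mem_univ, true_and]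
        exact ⟨fun h5 => ⟨h5, hs' z⟩, fun h5 => h5.1⟩) (fun B _ _ z _ => hs' z)
    have h5 : ((Set.univ : Set G) \ T0).ncard = Nat.card G - 2 * r + 2 := by
      rw [Set.ncard_sdiff (Set.subset_univ _), Set.ncard_univ, h1]
      omega
    rwa [h5, show k - 2 * (r - 1) = k - 2 * r + 2 by omega] at h4

/-- Cyclic groups. -/
theorem cyclic_case (h : IsSteiner (2 * r) k 𝓑) (hT : TransInv 𝓑) (hN : NegInv 𝓑) (hr : 0 < r)
    (hk : 2 * r < k) (hn : k < Nat.card G) (hG : IsAddCyclic G) :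
    ¬ r ∣ Nat.card G ∧ 2 * Nat.gcd r (Nat.card G) ∣ k := by
  have hcyc : ∀ H : AddSubgroup G, IsAddCyclic (G ⧸ H) := fun H =>
    isAddCyclic_of_surjective (QuotientAddGroup.mk' H) (QuotientAddGroup.mk'_surjective H)
  constructor
  · intro hd
    obtain ⟨H, hH⟩ := exists_subgroup (G := G) r hd
    obtain ⟨p, a, m, hp, ha, hm, h1, h2, h3⟩ := params_of_good h (by omega) hn (H := H)
      (by omega) (good_of_card h hT hN hr hk hn hH)
    have h4 : AddMonoid.exponent (G ⧸ H) ∣ p := by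
      rw [AddMonoid.exponent_dvd]
      intro x'
      obtain ⟨x, rfl⟩ := QuotientAddGroup.mk_surjective x'
      refine addOrderOf_dvd_of_nsmul_eq_zero ?_
      rw [← QuotientAddGroup.mk_nsmul, QuotientAddGroup.eq_zero_iff]
      exact h3 x
    rw [IsAddCyclic.exponent_eq_card] at h4
    have h5 := card_quot H
    rw [h2] at h5
    have h6 : Nat.card (G ⧸ H) = (p ^ a) ^ m := Nat.eq_of_mul_eq_mul_left Nat.card_pos h5
    rw [h6, ← pow_mul] at h4
    have h7 := Nat.le_of_dvd hp.pos h4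
    have h8 : 1 < a * m := by nlinarith
    have h9 : p ^ 1 < p ^ (a * m) := (Nat.pow_lt_pow_iff_right hp.one_lt).2 h8
    rw [pow_one] at h9
    omega
  · set d := Nat.gcd r (Nat.card G) with hd
    have hd0 : 0 < d := Nat.gcd_pos_of_pos_left _ hr
    obtain ⟨r', hr'⟩ : d ∣ r := Nat.gcd_dvd_left _ _
    obtain ⟨H, hH⟩ := exists_subgroup (G := G) d (Nat.gcd_dvd_right _ _)
    have hdt : Nat.card H ∣ 2 * r := by
      rw [hH, hr']
      exact ⟨2 * r', by ring⟩
    obtain ⟨k', hk'⟩ := card_dvd_block h hT H hdt (by omega)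
    rw [hH] at hk'
    have h1 := quot_steiner h hT H hdt
    rw [hH, hk', Nat.mul_div_cancel_left _ hd0,
      show 2 * r / d = 2 * r' by
        rw [hr', show 2 * (d * r') = d * (2 * r') by ring, Nat.mul_div_cancel_left _ hd0]] at h1
    have h2 := card_quot H
    rw [hH] at h2
    have h3 : k' < Nat.card (G ⧸ H) := by
      by_contra hc
      have : d * Nat.card (G ⧸ H) ≤ d * k' := Nat.mul_le_mul_left _ (by omega)
      omega
    have h4 : 2 * r' < Nat.card (G ⧸ H) := by
      by_contra hc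
      have : d * Nat.card (G ⧸ H) ≤ d * (2 * r') := Nat.mul_le_mul_left _ (by omega)
      have h5 : d * (2 * r') = 2 * r := by rw [hr']; ring
      omega
    have h5 : ¬ Odd k' := by
      intro hodd
      have h6 := exponent_dvd_of_odd h1 (quot_trans hT H) (quot_neg hN H) h4 hodd
      have := hcyc H
      rw [IsAddCyclic.exponent_eq_card] at h6
      have h7 : 0 < k' := Nat.pos_of_ne_zero (by
        rintro rfl
        simp at hodd)
      have := Nat.le_of_dvd h7 h6
      omega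
    rw [Nat.not_odd_iff_even] at h5
    obtain ⟨j, hj⟩ := h5
    rw [hk', hj]
    exact ⟨j, by ring⟩

/-- Odd block size and no prime divisor of the order below `t / 2`. -/
theorem odd_structure (h : IsSteiner (2 * r) k 𝓑) (hT : TransInv 𝓑) (hN : NegInv 𝓑) (hr : 0 < r)
    (hk : 2 * r < k) (hn : k < Nat.card G) (hko : Odd k)
    (hp : ∀ q : ℕ, q.Prime → q ∣ Nat.card G → r ≤ q) :
    ∃ (H : AddSubgroup G), Good H 𝓑 ∧ (Nat.card H = 1 ∨
      ((Nat.card H).Prime ∧ r ≤ Nat.card H ∧ Nat.card H < 2 * r)) := by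
  have hG := odd_card h hT hN (by omega) hko
  by_cases hc : ∃ q : ℕ, q.Prime ∧ q ∣ Nat.card G ∧ q < 2 * r
  · obtain ⟨q, hq, hqd, hqr⟩ := hc
    have := Fact.mk hq
    obtain ⟨g, hg⟩ := exists_prime_addOrderOf_dvd_card' (G := G) q hqd
    have h1 := hp q hq hqd
    refine ⟨AddSubgroup.zmultiples g, good_of_cyclic h hT hN (by omega) hko g (by omega)
      (by omega) ?_, Or.inr ?_⟩
    · have := hq.two_le
      omega
    · rw [Nat.card_zmultiples, hg]
      exact ⟨hq, h1, hqr⟩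
  · push Not at hc
    exact ⟨⊥, good_of_primes h hT hN (by omega) hko hc, Or.inl (by simp)⟩

/-- Strength four. -/
theorem strength_four {k : ℕ} {𝓑 : Set (Set G)} (h : IsSteiner 4 k 𝓑) (hT : TransInv 𝓑)
    (hN : NegInv 𝓑) (hk : 4 < k) (hn : k < Nat.card G) :
    (Odd (Nat.card G) ∧ Even k ∧ (k - 2) * (k - 3) ∣ Nat.card G - 3) ∨
      ∃ c p a m : ℕ, (c = 1 ∨ c = 2 ∨ c = 3) ∧ p.Prime ∧ 0 < a ∧ 1 < m ∧ k = c * p ^ a ∧
        Nat.card G = c * (p ^ a) ^ m := by
  have h' : IsSteiner (2 * 2) k 𝓑 := h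
  rcases Nat.even_or_odd (Nat.card G) with hG | hG
  · right
    obtain ⟨H, hH⟩ := exists_subgroup (G := G) 2 hG.two_dvd
    obtain ⟨p, a, m, hp, ha, hm, h1, h2, -⟩ := params_of_good h' (by omega) hn (H := H)
      (by omega) (good_of_card h' hT hN (by omega) (by omega) hn hH)
    rw [hH] at h1 h2
    exact ⟨2, p, a, m, by simp, hp, ha, hm, h1, h2⟩
  · rcases Nat.even_or_odd k with hke | hko
    · left
      refine ⟨hG, hke, ?_⟩
      have h1 := count_odd h' hT hN (by omega) (by omega) hn hG hke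
      rw [show k - 2 * 2 + 1 = k - 3 by omega, show k - 2 * 2 + 2 = k - 2 by omega,
        show Nat.card G - 2 * 2 + 1 = Nat.card G - 3 by omega, mul_comm] at h1
      exact h1
    · right
      obtain ⟨H, hH, hHc⟩ := odd_structure h' hT hN (by omega) (by omega) hn hko
        (fun q hq _ => hq.two_le)
      have hHn : Nat.card H < Nat.card G := by
        rcases hHc with h1 | ⟨-, -, h1⟩ <;> omega
      obtain ⟨p, a, m, hp, ha, hm, h1, h2, -⟩ := params_of_good h' (by omega) hn hHn hH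
      refine ⟨Nat.card H, p, a, m, ?_, hp, ha, hm, h1, h2⟩
      rcases hHc with h3 | ⟨-, h3, h4⟩ <;> omega

/-- The sets of group elements which together with the extra point form a block. -/
def derived {G : Type} (𝓔 : Set (Set (Option G))) : Set (Set G) :=
  {C | insert none (some '' C) ∈ 𝓔}

theorem derived_steiner {G : Type} [Finite G] {t k : ℕ} {𝓔 : Set (Set (Option G))}
    (h : IsSteiner (t + 1) (k + 1) 𝓔) : IsSteiner t k (derived 𝓔) := by
  have hc : ∀ C : Set G, (insert none (some '' C)).ncard = C.ncard + 1 := by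
    intro C
    rw [Set.ncard_insert_of_notMem (by simp),
      Set.ncard_image_of_injective _ (Option.some_injective G)]
  constructor
  · intro C hC
    have h1 := h.1 _ hC
    rw [hc] at h1
    omega
  · intro T hT
    obtain ⟨B, ⟨hB, hTB⟩, hu⟩ := h.2 _ (show (insert none (some '' T)).ncard = t + 1 by
      rw [hc, hT])
    have hBeq : insert none (some '' (some ⁻¹' B)) = B := by
      ext z
      rcases z with _ | z
      · simp only [Set.mem_insert_iff, true_or, true_iff]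
        exact hTB (Set.mem_insert _ _)
      · simp
    refine ⟨some ⁻¹' B, ⟨?_, ?_⟩, ?_⟩
    · show insert none (some '' (some ⁻¹' B)) ∈ 𝓔
      rw [hBeq]
      exact hB
    · intro z hz
      exact hTB (Set.mem_insert_of_mem _ ⟨z, hz, rfl⟩)
    · rintro C ⟨hC, hTC⟩
      have h1 := hu _ ⟨hC, Set.insert_subset_insert (Set.image_mono hTC)⟩
      rw [← h1]
      ext z
      simp

theorem derived_image {G : Type} {𝓔 : Set (Set (Option G))} (f : G → G)
    (h : ∀ B ∈ 𝓔, Option.map f '' B ∈ 𝓔) : ∀ C ∈ derived 𝓔, f '' C ∈ derived 𝓔 := by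
  intro C hC
  have h1 := h _ hC
  show insert none (some '' (f '' C)) ∈ 𝓔
  rw [Set.image_insert_eq, Set.image_image] at h1
  rw [Set.image_image]
  exact h1

end Pool.Agent.V7H65.SD
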