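import Mathlib

/-!
# Steiner systems on a finite abelian group: definitions and basic lemmas
-/

set_option autoImplicit false

namespace Pool.Agent.V7H65.SD

/-- `𝓑` is a Steiner system on `V` with block size `k` and strength `t`: all blocks have exactly
`k` elements and every `t`-element set of points lies in exactly one block. -/
def IsSteiner {V : Type} (t k : ℕ) (𝓑 : Set (Set V)) : Prop :=
  (∀ B ∈ 𝓑, B.ncard = k) ∧ ∀ T : Set V, T.ncard = t → ∃! B : Set V, B ∈ 𝓑 ∧ T ⊆ B

/-- `𝓑` is mapped to itself by all translations. -/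
def TransInv {G : Type} [AddCommGroup G] (𝓑 : Set (Set G)) : Prop :=
  ∀ g : G, ∀ B ∈ 𝓑, (fun z => g + z) '' B ∈ 𝓑

/-- `𝓑` is mapped to itself by `z ↦ -z`. -/
def NegInv {G : Type} [AddCommGroup G] (𝓑 : Set (Set G)) : Prop :=
  ∀ B ∈ 𝓑, (fun z => -z) '' B ∈ 𝓑

/-- The family of the sets of `H`-cosets whose union is a block. -/
def quot {G : Type} [AddCommGroup G] (H : AddSubgroup G) (𝓑 : Set (Set G)) : Set (Set (G ⧸ H)) :=
  {C | (QuotientAddGroup.mk : G → G ⧸ H) ⁻¹' C ∈ 𝓑}

set_option linter.unusedSectionVars false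

section basic

variable {V : Type} [Finite V] {t k : ℕ} {𝓑 : Set (Set V)}

theorem exists_sub_card {T : Set V} {n : ℕ} (h : n ≤ T.ncard) : ∃ S ⊆ T, S.ncard = n := by
  obtain ⟨S, hS, hS'⟩ := Set.exists_subset_card_eq h
  exact ⟨S, hS, hS'⟩

theorem IsSteiner.eq_of (h : IsSteiner t k 𝓑) {B B' T : Set V} (hB : B ∈ 𝓑) (hB' : B' ∈ 𝓑)
    (hT : T ⊆ B) (hT' : T ⊆ B') (hc : t ≤ T.ncard) : B = B' := by
  obtain ⟨S, hS, hSc⟩ := exists_sub_card hc
  exact (h.2 S hSc).unique ⟨hB, hS.trans hT⟩ ⟨hB', hS.trans hT'⟩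

theorem IsSteiner.fix (h : IsSteiner t k 𝓑) {f : V → V} (hf : Function.Injective f)
    (hfB : ∀ B ∈ 𝓑, f '' B ∈ 𝓑) {B T : Set V} (hB : B ∈ 𝓑) (hT : T ⊆ B)
    (hT' : f '' T ⊆ B) (hc : t ≤ T.ncard) : f '' B = B := by
  refine h.eq_of (hfB B hB) hB (Set.image_mono hT) hT' ?_
  rwa [Set.ncard_image_of_injective T hf]

/-- Parity: a finite set with a fixed point free involution. -/
theorem even_of_invol {B : Set V} (f : V → V) (hfB : ∀ z ∈ B, f z ∈ B)
    (hff : ∀ z ∈ B, f (f z) = z) (hne : ∀ z ∈ B, f z ≠ z) : Even B.ncard := by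
  classical
  have hfin : B.Finite := Set.toFinite B
  rw [Set.ncard_eq_toFinset_card B hfin]
  have : ((hfin.toFinset.card : ℕ) : ZMod 2) = 0 := by
    have h1 : ∑ x ∈ hfin.toFinset, (1 : ZMod 2) = 0 := by
      refine Finset.sum_involution (fun z _ => f z) ?_ ?_ ?_ ?_
      · intro z _
        decide
      · intro z hz _
        exact hne z (hfin.mem_toFinset.1 hz)
      · intro z hz
        exact hfin.mem_toFinset.2 (hfB z (hfin.mem_toFinset.1 hz))
      · intro z hz
        exact hff z (hfin.mem_toFinset.1 hz)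
    simpa using h1
  rw [ZMod.natCast_eq_zero_iff] at this
  exact even_iff_two_dvd.2 this

/-- Sets invariant under an involution. -/
theorem exists_inv_set (f : V → V) (hff : ∀ z, f (f z) = z) (F : Set V)
    (hF : ∀ z ∈ F, f z ∈ F) (hfix : ∀ z, f z = z → z ∈ F) (r : ℕ)
    (hr : 2 * r + F.ncard ≤ Nat.card V + 1) :
    ∃ T : Set V, T.ncard = 2 * r ∧ (∀ z ∈ T, f z ∈ T) ∧ Disjoint T F := by
  induction r with
  | zero => exact ⟨∅, by simp, by simp, by simp⟩
  | succ r ih =>
    obtain ⟨T, hT, hTf, hTF⟩ := ih (by omega)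
    have hne : (T ∪ F) ≠ Set.univ := by
      intro h
      have h1 : (T ∪ F).ncard = T.ncard + F.ncard :=
        Set.ncard_union_eq hTF (Set.toFinite _) (Set.toFinite _)
      rw [h, Set.ncard_univ] at h1
      omega
    obtain ⟨z, hz⟩ := (Set.ne_univ_iff_exists_notMem _).1 hne
    have hzT : z ∉ T := fun h => hz (Or.inl h)
    have hzF : z ∉ F := fun h => hz (Or.inr h)
    have hfzT : f z ∉ T := fun h => hzT (by simpa [hff] using hTf _ h)
    have hfzF : f z ∉ F := fun h => hzF (by simpa [hff] using hF _ h)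
    have hzz : f z ≠ z := fun h => hzF (hfix z h)
    refine ⟨insert z (insert (f z) T), ?_, ?_, ?_⟩
    · rw [Set.ncard_insert_of_notMem, Set.ncard_insert_of_notMem hfzT, hT]
      · omega
      · simp only [Set.mem_insert_iff, not_or]
        exact ⟨hzz.symm, hzT⟩
    · intro w hw
      simp only [Set.mem_insert_iff] at hw ⊢
      rcases hw with rfl | rfl | hw
      · exact Or.inr (Or.inl rfl)
      · exact Or.inl (hff z)
      · exact Or.inr (Or.inr (hTf w hw))
    · rw [Set.disjoint_left] at hTF ⊢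
      intro w hw
      simp only [Set.mem_insert_iff] at hw
      rcases hw with rfl | rfl | hw
      · exact hzF
      · exact hfzF
      · exact hTF hw

end basic

section group

variable {G : Type} [AddCommGroup G] [Finite G] {t k : ℕ} {𝓑 : Set (Set G)}

theorem refl_mem (hT : TransInv 𝓑) (hN : NegInv 𝓑) (s : G) {B : Set G} (hB : B ∈ 𝓑) :
    (fun z => s - z) '' B ∈ 𝓑 := by
  have := hT s _ (hN B hB)
  rw [Set.image_image] at this
  simpa [sub_eq_add_neg] using this

/-- A block with a large part symmetric about `s / 2` is symmetric about `s / 2`. -/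
theorem refl_inv (h : IsSteiner t k 𝓑) (hT : TransInv 𝓑) (hN : NegInv 𝓑) (s : G) {B T : Set G}
    (hB : B ∈ 𝓑) (hTB : T ⊆ B) (hTs : ∀ z ∈ T, s - z ∈ B) (hc : t ≤ T.ncard) :
    ∀ z ∈ B, s - z ∈ B := by
  have h1 := h.fix (f := fun z => s - z) sub_right_injective (fun B hB => refl_mem hT hN s hB) hB
    hTB (by rintro _ ⟨z, hz, rfl⟩; exact hTs z hz) hc
  intro z hz
  rw [← h1]
  exact ⟨z, hz, rfl⟩

theorem trans_inv (h : IsSteiner t k 𝓑) (hT : TransInv 𝓑) (s : G) {B T : Set G}
    (hB : B ∈ 𝓑) (hTB : T ⊆ B) (hTs : ∀ z ∈ T, s + z ∈ B) (hc : t ≤ T.ncard) :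
    ∀ z ∈ B, s + z ∈ B := by
  have h1 := h.fix (f := fun z => s + z) (add_right_injective s) (fun B hB => hT s B hB) hB
    hTB (by rintro _ ⟨z, hz, rfl⟩; exact hTs z hz) hc
  intro z hz
  rw [← h1]
  exact ⟨z, hz, rfl⟩

theorem card_preimage (H : AddSubgroup G) (C : Set (G ⧸ H)) :
    ((QuotientAddGroup.mk : G → G ⧸ H) ⁻¹' C).ncard = Nat.card H * C.ncard := by
  have h1 : Nat.card ((QuotientAddGroup.mk : G → G ⧸ H) ⁻¹' C : Set G) = Nat.card (H × C) :=
    Nat.card_congr (QuotientAddGroup.preimageMkEquivAddSubgroupProdSet H C)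
  rw [Nat.card_prod, Nat.card_coe_set_eq, Nat.card_coe_set_eq] at h1
  exact h1

/-- A set closed under adding elements of `H` is the union of the cosets it meets. -/
theorem preimage_image (H : AddSubgroup G) {B : Set G} (hB : ∀ h ∈ H, ∀ z ∈ B, h + z ∈ B) :
    (QuotientAddGroup.mk : G → G ⧸ H) ⁻¹' ((QuotientAddGroup.mk : G → G ⧸ H) '' B) = B := by
  ext z
  constructor
  · rintro ⟨w, hw, hwz⟩
    have h1 : -w + z ∈ H := QuotientAddGroup.eq.1 hwz
    have h2 := hB _ h1 w hw
    rwa [show -w + z + w = z by abel] at h2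
  · exact fun hz => ⟨z, hz, rfl⟩

theorem card_dvd_of_inv (H : AddSubgroup G) {B : Set G} (hB : ∀ h ∈ H, ∀ z ∈ B, h + z ∈ B) :
    Nat.card H ∣ B.ncard := by
  rw [← preimage_image H hB, card_preimage]
  exact Dvd.intro _ rfl

/-- Closure of a set under `z ↦ x + z` gives closure under the subgroup generated by `x`. -/
theorem zmultiples_inv {x : G} {B : Set G} (hB : ∀ z ∈ B, x + z ∈ B) :
    ∀ h ∈ AddSubgroup.zmultiples x, ∀ z ∈ B, h + z ∈ B := by
  intro h hh z hz
  obtain ⟨n, rfl⟩ := mem_multiples_iff_mem_zmultiples.2 hh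
  clear hh
  induction n with
  | zero => simpa using hz
  | succ n ih =>
    have h1 := hB _ ih
    simp only [succ_nsmul] at h1 ⊢
    rwa [show n • x + x + z = x + (n • x + z) by abel]

theorem addOrderOf_dvd_of_inv {x : G} {B : Set G} (hB : ∀ z ∈ B, x + z ∈ B) :
    addOrderOf x ∣ B.ncard := by
  rw [← Nat.card_zmultiples]
  exact card_dvd_of_inv _ (zmultiples_inv hB)

end group

end Pool.Agent.V7H65.SD
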