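import Pool.Agent.V7H65.SD.Odd

/-!
# The Steiner system of half the strength on the pairs exchanged by a reflection
-/

set_option autoImplicit false
set_option linter.unusedSectionVars false

namespace Pool.Agent.V7H65.SD

variable {G : Type} [AddCommGroup G] [Finite G] {r k : ℕ} {𝓑 : Set (Set G)}

/-- Representatives of the pairs exchanged by `z ↦ s - z`. -/
theorem exists_reps (s : G) : ∃ R : Set G, (∀ z ∈ R, s - z ∉ R) ∧
    (∀ z, s - z ≠ z → z ∈ R ∨ s - z ∈ R) ∧ ∀ z ∈ R, s - z ≠ z := by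
  classical
  have := Fintype.ofFinite G
  let e := Fintype.equivFin G
  refine ⟨{z | e z < e (s - z)}, ?_, ?_, ?_⟩
  · intro z hz hz'
    have h1 : e z < e (s - z) := hz
    have h2 : e (s - z) < e (s - (s - z)) := hz'
    rw [sub_sub_cancel] at h2
    exact lt_asymm h1 h2
  · intro z hz
    rcases lt_trichotomy (e z) (e (s - z)) with h1 | h1 | h1
    · exact Or.inl h1
    · exact (hz (e.injective h1).symm).elim
    · right
      show e (s - z) < e (s - (s - z))
      rw [sub_sub_cancel]
      exact h1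
  · intro z hz h1
    have h2 : e z < e (s - z) := hz
    rw [h1] at h2
    exact lt_irrefl _ h2

/-- The union of the pairs with a representative in `C`. -/
def pairs (s : G) {R : Set G} (C : Set R) : Set G :=
  (Subtype.val '' C) ∪ (fun z => s - z) '' (Subtype.val '' C)

theorem pairs_card (s : G) {R : Set G} (hR : ∀ z ∈ R, s - z ∉ R) (C : Set R) :
    (pairs s C).ncard = 2 * C.ncard := by
  unfold pairs
  rw [Set.ncard_union_eq, Set.ncard_image_of_injective _ (sub_right_injective),
    Set.ncard_image_of_injective _ Subtype.val_injective]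
  · ring
  · rw [Set.disjoint_left]
    rintro _ ⟨⟨z, hz⟩, -, rfl⟩ ⟨_, ⟨⟨w, hw⟩, -, rfl⟩, h1⟩
    have h2 : s - w = z := h1
    exact hR w hw (h2 ▸ hz)

theorem pairs_system (h : IsSteiner (2 * r) k 𝓑) (hT : TransInv 𝓑) (hN : NegInv 𝓑) (s : G)
    (F : Set G) (hFs : ∀ z ∈ F, s - z = z)
    (hFB : ∀ B ∈ 𝓑, (∀ z ∈ B, s - z ∈ B) → ∀ z, s - z = z → (z ∈ B ↔ z ∈ F))
    (hkF : k % 2 = F.ncard) :
    ∃ R : Set G, 2 * Nat.card R = {z : G | s - z ≠ z}.ncard ∧
      ∃ 𝓒 : Set (Set R), IsSteiner r (k / 2) 𝓒 := by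
  obtain ⟨R, h1, h2, h3⟩ := exists_reps s
  refine ⟨R, ?_, {C | pairs s C ∪ F ∈ 𝓑}, ?_, ?_⟩
  · have h4 : pairs s (Set.univ : Set R) = {z : G | s - z ≠ z} := by
      ext z
      unfold pairs
      simp only [Set.image_univ, Subtype.range_coe_subtype, Set.ofPred_mem_eq, Set.mem_union,
        Set.mem_image]
      constructor
      · rintro (hz | ⟨w, hw, rfl⟩)
        · exact h3 z hz
        · have := h3 w hw
          show s - (s - w) ≠ s - w
          rw [sub_sub_cancel]
          exact this.symm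
      · intro hz
        rcases h2 z hz with h5 | h5
        · exact Or.inl h5
        · exact Or.inr ⟨s - z, h5, by simp⟩
    rw [← h4, pairs_card s h1, Set.ncard_univ]
  · intro C hC
    have h4 := h.1 _ hC
    have h5 : Disjoint (pairs s C) F := by
      rw [Set.disjoint_left]
      rintro z (⟨⟨w, hw⟩, -, rfl⟩ | ⟨_, ⟨⟨w, hw⟩, -, rfl⟩, rfl⟩) hzF
      · exact h3 w hw (hFs _ hzF)
      · have h6 : s - (s - w) = s - w := hFs _ hzF
        rw [sub_sub_cancel] at h6
        exact h3 w hw h6.symm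
    rw [Set.ncard_union_eq h5, pairs_card s h1] at h4
    omega
  · intro T hT'
    have hTc : (pairs s T).ncard = 2 * r := by rw [pairs_card s h1, hT']
    have hTs : ∀ z ∈ pairs s T, s - z ∈ pairs s T := by
      rintro z (hz | ⟨w, hw, rfl⟩)
      · exact Or.inr ⟨z, hz, rfl⟩
      · left
        show s - (s - w) ∈ _
        rwa [sub_sub_cancel]
    obtain ⟨B, hB, hTB, hBs⟩ := sym_block h hT hN s hTc hTs
    have hBeq : pairs s {w : R | (w : G) ∈ B} ∪ F = B := by
      ext z
      constructor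
      · rintro ((⟨w, hw, rfl⟩ | ⟨_, ⟨w, hw, rfl⟩, rfl⟩) | hz)
        · exact hw
        · exact hBs _ hw
        · exact (hFB B hB hBs z (hFs z hz)).2 hz
      · intro hz
        by_cases h4 : s - z = z
        · exact Or.inr ((hFB B hB hBs z h4).1 hz)
        · left
          rcases h2 z h4 with h5 | h5
          · exact Or.inl ⟨⟨z, h5⟩, hz, rfl⟩
          · exact Or.inr ⟨s - z, ⟨⟨s - z, h5⟩, hBs z hz, rfl⟩, by simp⟩
    refine ⟨{w : R | (w : G) ∈ B}, ⟨?_, ?_⟩, ?_⟩
    · show pairs s {w : R | (w : G) ∈ B} ∪ F ∈ 𝓑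
      rw [hBeq]
      exact hB
    · intro w hw
      exact hTB (Or.inl ⟨w, hw, rfl⟩)
    · rintro C ⟨hC, hTC⟩
      have h4 : pairs s T ⊆ pairs s C ∪ F := by
        rintro z (⟨w, hw, rfl⟩ | ⟨_, ⟨w, hw, rfl⟩, rfl⟩)
        · exact Or.inl (Or.inl ⟨w, hTC hw, rfl⟩)
        · exact Or.inl (Or.inr ⟨_, ⟨w, hTC hw, rfl⟩, rfl⟩)
      have h5 : pairs s C ∪ F = B := h.eq_of hC hB h4 hTB hTc.ge
      ext w
      constructor
      · intro hw
        show (w : G) ∈ B
        rw [← h5]
        exact Or.inl (Or.inl ⟨w, hw, rfl⟩)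
      · intro hw
        have hw' : (w : G) ∈ B := hw
        rw [← h5] at hw'
        rcases hw' with (⟨v, hv, hvw⟩ | ⟨_, ⟨v, hv, rfl⟩, hvw⟩) | hw'
        · rwa [← Subtype.val_injective hvw]
        · exfalso
          have h6 : s - (v : G) = (w : G) := hvw
          exact h1 v v.2 (h6 ▸ w.2)
        · exact (h3 w w.2 (hFs _ hw')).elim

/-- A system of half the strength. -/
theorem half_system (h : IsSteiner (2 * r) k 𝓑) (hT : TransInv 𝓑) (hN : NegInv 𝓑)
    (hn : 2 * r < Nat.card G) : ∃ R : Set G, Nat.card R = Nat.card G / 2 ∧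
      ∃ 𝓒 : Set (Set R), IsSteiner r (k / 2) 𝓒 := by
  rcases Nat.even_or_odd (Nat.card G) with hG | hG
  · have hke : Even k := by
      by_contra hc
      rw [Nat.not_even_iff_odd] at hc
      exact (Nat.not_even_iff_odd.2 (odd_card h hT hN hn hc)) hG
    obtain ⟨s, hs⟩ := exists_not_double hG
    have hs' : ∀ z : G, s - z ≠ z := by
      intro z hz
      exact hs z (by nth_rw 1 [← hz]; abel)
    obtain ⟨R, hR, 𝓒, h𝓒⟩ := pairs_system h hT hN s ∅ (by simp)
      (fun B _ _ z hz => (hs' z hz).elim) (by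
        rw [Set.ncard_empty]
        exact Nat.even_iff.1 hke)
    refine ⟨R, ?_, 𝓒, h𝓒⟩
    have h1 : {z : G | s - z ≠ z} = Set.univ := Set.eq_univ_of_forall hs'
    rw [h1, Set.ncard_univ] at hR
    omega
  · have hfix : {z : G | 0 - z ≠ z} = Set.univ \ {0} := by
      ext z
      simp only [zero_sub, Set.mem_sdiff, Set.mem_univ, true_and, Set.mem_singleton_iff]
      constructor
      · intro hz h0
        exact hz (by rw [h0, neg_zero])
      · intro hz h0
        exact hz (neg_ne hG h0)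
    have hcard : {z : G | 0 - z ≠ z}.ncard = Nat.card G - 1 := by
      rw [hfix, Set.ncard_sdiff_singleton_of_mem (Set.mem_univ _), Set.ncard_univ]
    have hno : ∀ B ∈ 𝓑, (∀ z ∈ B, 0 - z ∈ B) → (0 : G) ∉ B → Even k := by
      intro B hB hs h0
      simp only [zero_sub] at hs
      have h1 := even_of_invol (fun z => -z) hs (by simp) (by
        intro z hz hz'
        exact h0 (neg_ne hG hz' ▸ hz))
      rwa [h.1 B hB] at h1
    have hyes : ∀ B ∈ 𝓑, (∀ z ∈ B, 0 - z ∈ B) → (0 : G) ∈ B → ¬ Even k := by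
      intro B hB hs h0 hke
      simp only [zero_sub] at hs
      have h6 := even_of_invol (B := B \ {0}) (fun z => -z) (by
        intro w hw
        exact ⟨hs w hw.1, by simpa using hw.2⟩) (by simp) (by
        intro w hw hw'
        exact hw.2 (neg_ne hG hw'))
      have h7 : 0 < k := by
        rw [← h.1 B hB, Set.ncard_pos]
        exact ⟨0, h0⟩
      rw [Set.ncard_sdiff_singleton_of_mem h0, h.1 B hB] at h6
      rw [Nat.even_iff] at h6 hke
      omega
    have hodd := Nat.odd_iff.1 hG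
    rcases Nat.even_or_odd k with hke | hko
    · obtain ⟨R, hR, 𝓒, h𝓒⟩ := pairs_system h hT hN 0 ∅ (by simp) (by
        intro B hB hs z hz
        have h0 : z = 0 := neg_ne hG (by simpa using hz)
        subst h0
        simp only [Set.mem_empty_iff_false, iff_false]
        exact fun h1 => hyes B hB hs h1 hke) (by
        rw [Set.ncard_empty]
        exact Nat.even_iff.1 hke)
      refine ⟨R, ?_, 𝓒, h𝓒⟩
      rw [hcard] at hR
      omega
    · obtain ⟨R, hR, 𝓒, h𝓒⟩ := pairs_system h hT hN 0 {0} (by simp) (by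
        intro B hB hs z hz
        have h0 : z = 0 := neg_ne hG (by simpa using hz)
        subst h0
        simp only [Set.mem_singleton_iff, iff_true]
        by_contra h1
        exact (Nat.not_even_iff_odd.2 hko) (hno B hB hs h1)) (by
        rw [Set.ncard_singleton]
        exact Nat.odd_iff.1 hko)
      refine ⟨R, ?_, 𝓒, h𝓒⟩
      rw [hcard] at hR
      omega

end Pool.Agent.V7H65.SD
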