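import Pool.Agent.V7H65.SD.Count
import Pool.Agent.V7H65.SD.Pairs

/-!
# Steiner systems of even strength with a generalised dihedral group of automorphisms

Let `G` be a finite abelian group of order `n` and let `𝓑` be a Steiner system on the set `G` with
block size `k` and even strength `t = 2 r`, `t < k < n` (an `S(n, k, t)` in the order of the
problem), which is mapped to itself by all maps `z ↦ g + z` and by `z ↦ -z`. For cyclic `G` this
says that the dihedral group of order `2 n` acts on the system in the natural way.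
-/

set_option autoImplicit false

namespace Pool.Agent.Results.MP_409a13_co.DihedralSymmetryH65

open Pool.Agent.V7H65.SD

theorem result :
    (∀ (G : Type) [AddCommGroup G] [Finite G] (r k : ℕ) (𝓑 : Set (Set G)),
      0 < r → 2 * r < k → k < Nat.card G → IsSteiner (2 * r) k 𝓑 → TransInv 𝓑 → NegInv 𝓑 →
      -- (1) a system of half the strength on half as many points
      (∃ R : Set G, Nat.card R = Nat.card G / 2 ∧
        ∃ 𝓒 : Set (Set R), IsSteiner r (k / 2) 𝓒) ∧
      (Odd (Nat.card G) → Even k →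
        (k - 2 * r + 1) * (k - 2 * r + 2) ∣ Nat.card G - 2 * r + 1) ∧
      -- (2) odd block size
      (Odd k → Odd (Nat.card G) ∧ AddMonoid.exponent G ∣ k ∧
        (∀ x : G, r ≤ addOrderOf x → ∃ K : AddSubgroup G, x ∈ K ∧ (K : Set G) ∈ 𝓑) ∧
        ((∀ q : ℕ, q.Prime → q ∣ Nat.card G → r ≤ q) →
          ∃ c p a m : ℕ, (c = 1 ∨ (c.Prime ∧ r ≤ c ∧ c < 2 * r)) ∧ p.Prime ∧ 0 < a ∧ 1 < m ∧
            k = c * p ^ a ∧ Nat.card G = c * (p ^ a) ^ m)) ∧
      -- (3) the structure theorem
      (∀ H : AddSubgroup G,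
        (Nat.card H = r ∨
          (Odd k ∧ (∃ g : G, H = AddSubgroup.zmultiples g) ∧ r ≤ Nat.card H ∧
            Nat.card H < 2 * r) ∨
          (Odd k ∧ H = ⊥ ∧ ∀ q : ℕ, q.Prime → q ∣ Nat.card G → 2 * r ≤ q)) →
        (∀ x : G, x ∉ H → ∃! K : AddSubgroup G, H ≤ K ∧ x ∈ K ∧ (K : Set G) ∈ 𝓑) ∧
        ∃ p a m : ℕ, p.Prime ∧ 0 < a ∧ 1 < m ∧ k = Nat.card H * p ^ a ∧
          Nat.card G = Nat.card H * (p ^ a) ^ m ∧ ∀ g : G, p • g ∈ H) ∧
      -- (4) strength four
      (r = 2 → (Odd (Nat.card G) ∧ Even k ∧ (k - 2) * (k - 3) ∣ Nat.card G - 3) ∨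
        ∃ c p a m : ℕ, (c = 1 ∨ c = 2 ∨ c = 3) ∧ p.Prime ∧ 0 < a ∧ 1 < m ∧ k = c * p ^ a ∧
          Nat.card G = c * (p ^ a) ^ m) ∧
      -- (5) cyclic groups
      (IsAddCyclic G → ¬ r ∣ Nat.card G ∧ 2 * Nat.gcd r (Nat.card G) ∣ k) ∧
      -- (6) `q`-analogues of Steiner systems
      (∀ p s : ℕ, p.Prime → (∀ g : G, p • g = 0) →
        (r = p ^ s ∨ (Odd k ∧ s = 1 ∧ r ≤ p ∧ p < 2 * r)) →
        (∃ a : ℕ, k = p ^ a) ∧ ∀ L : AddSubgroup G, Nat.card L = p ^ (s + 1) →
          ∃! K : AddSubgroup G, L ≤ K ∧ (K : Set G) ∈ 𝓑)) ∧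
    -- (7) descent to quotient groups, for any strength and without `z ↦ -z`
    (∀ (G : Type) [AddCommGroup G] [Finite G] (t k : ℕ) (𝓑 : Set (Set G)),
      t ≤ Nat.card G → IsSteiner t k 𝓑 → TransInv 𝓑 →
      ∀ H : AddSubgroup G, Nat.card H ∣ t → Nat.card H ∣ k ∧
        IsSteiner (t / Nat.card H) (k / Nat.card H) (quot H 𝓑) ∧ TransInv (quot H 𝓑) ∧
        (NegInv 𝓑 → NegInv (quot H 𝓑))) ∧
    -- (8) systems of odd strength with one more point
    (∀ (G : Type) [AddCommGroup G] [Finite G] (t k : ℕ) (𝓔 : Set (Set (Option G))),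
      IsSteiner (t + 1) (k + 1) 𝓔 → (∀ g : G, ∀ B ∈ 𝓔, Option.map (fun z => g + z) '' B ∈ 𝓔) →
      (∀ B ∈ 𝓔, Option.map (fun z => -z) '' B ∈ 𝓔) →
      IsSteiner t k (derived 𝓔) ∧ TransInv (derived 𝓔) ∧ NegInv (derived 𝓔)) := by
  refine ⟨?_, ?_, ?_⟩
  · intro G _ _ r k 𝓑 hr hk hn h hT hN
    refine ⟨half_system h hT hN (by omega), fun hG hke => count_odd h hT hN hr hk hn hG hke,
      ?_, ?_, ?_, cyclic_case h hT hN hr hk hn, ?_⟩
    · intro hko
      refine ⟨odd_card h hT hN (by omega) hko, exponent_dvd_of_odd h hT hN (by omega) hko,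
        fun x hx => exists_sub_block h hT hN (by omega) hko x hx, ?_⟩
      intro hp
      obtain ⟨H, hH, hHc⟩ := odd_structure h hT hN hr hk hn hko hp
      have hHn : Nat.card H < Nat.card G := by
        rcases hHc with h1 | ⟨-, -, h1⟩ <;> omega
      obtain ⟨p, a, m, hp, ha, hm, h1, h2, -⟩ := params_of_good h (by omega) hn hHn hH
      exact ⟨Nat.card H, p, a, m, hHc, hp, ha, hm, h1, h2⟩
    · intro H hH
      have hHn : Nat.card H < Nat.card G := by
        rcases hH with h1 | ⟨-, -, -, h1⟩ | ⟨-, h1, -⟩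
        · omega
        · omega
        · rw [h1]
          simp only [AddSubgroup.mem_bot, Nat.card_unique]
          omega
      have hgood : Good H 𝓑 := by
        rcases hH with h1 | ⟨hko, ⟨g, rfl⟩, h1, h2⟩ | ⟨hko, rfl, h1⟩
        · exact good_of_card h hT hN hr hk hn h1
        · by_cases hr1 : r = 1
          · exact good_of_card h hT hN hr hk hn (by omega)
          · rw [Nat.card_zmultiples] at h1 h2
            exact good_of_cyclic h hT hN (by omega) hko g h1 h2 (by omega)
        · exact good_of_primes h hT hN (by omega) hko h1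
      exact ⟨hgood, params_of_good h (by omega) hn hHn hgood⟩
    · intro hr2
      subst hr2
      exact strength_four h hT hN hk hn
    · intro p s hp hpG hrs
      have hgood : ∀ H : AddSubgroup G, Nat.card H = p ^ s → Good H 𝓑 := by
        intro H hH
        rcases hrs with h1 | ⟨hko, hs, h1, h2⟩
        · exact good_of_card h hT hN hr hk hn (by rw [hH, h1])
        · rw [hs, pow_one] at hH
          have := Fact.mk hp
          obtain ⟨g, hg⟩ := exists_prime_addOrderOf_dvd_card' (G := H) p (by rw [hH])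
          have h3 : H = AddSubgroup.zmultiples (g : G) := by
            symm
            refine AddSubgroup.eq_of_le_of_card_ge
              (AddSubgroup.zmultiples_le_of_mem g.2) ?_
            rw [Nat.card_zmultiples, hH, ← hg]
            exact (AddSubgroup.addOrderOf_coe g).ge
          have h4 : addOrderOf (g : G) = p := by rw [AddSubgroup.addOrderOf_coe, hg]
          rw [h3]
          have := hp.two_le
          exact good_of_cyclic h hT hN (by omega) hko g (by omega) (by omega) (by omega)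
      have hrs' : 2 * r ≤ p ^ (s + 1) := by
        rcases hrs with h1 | ⟨hko, hs, h1, h2⟩
        · rw [h1, pow_succ, mul_comm]
          exact Nat.mul_le_mul_left _ hp.two_le
        · rw [hs, show p ^ (1 + 1) = p * p by ring]
          exact Nat.mul_le_mul hp.two_le h1
      have key := q_steiner h hp hrs' hgood
      refine ⟨?_, key⟩
      obtain ⟨b, hb⟩ := card_eq_pow hp hpG
      have hsb : p ^ (s + 1) ∣ Nat.card G := by
        rw [hb]
        refine pow_dvd_pow p ?_
        by_contra hc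
        have h1 : p ^ b ≤ p ^ s := Nat.pow_le_pow_right hp.pos (by omega)
        rw [hb] at hn
        rcases hrs with h2 | ⟨hko, hs, h2, h3⟩
        · omega
        · rw [hs, pow_one] at h1
          omega
      obtain ⟨L, hL⟩ := exists_subgroup (G := G) _ hsb
      obtain ⟨K, ⟨-, hK⟩, -⟩ := key L hL
      obtain ⟨m, hm⟩ := card_eq_pow (A := K) hp (by
        rintro ⟨g, hg⟩
        exact Subtype.ext (hpG g))
      exact ⟨m, by rw [← hm, ← h.1 _ hK]; rfl⟩
  · intro G _ _ t k 𝓑 ht h hT H hH
    exact ⟨card_dvd_block h hT H hH ht, quot_steiner h hT H hH, quot_trans hT H,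
      fun hN => quot_neg hN H⟩
  · intro G _ _ t k 𝓔 h hT hN
    exact ⟨derived_steiner h, fun g => derived_image _ (hT g), derived_image _ hN⟩

end Pool.Agent.Results.MP_409a13_co.DihedralSymmetryH65
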