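import Pool.Agent.V7H65.SD.Quot

/-!
# Odd block size
-/

set_option autoImplicit false
set_option linter.unusedSectionVars false

namespace Pool.Agent.V7H65.SD

variable {G : Type} [AddCommGroup G] [Finite G] {r k : ℕ} {𝓑 : Set (Set G)}

/-- Every set of `2 r` points closed under `z ↦ s - z` lies in a block closed under
`z ↦ s - z`. -/
theorem sym_block (h : IsSteiner (2 * r) k 𝓑) (hT : TransInv 𝓑) (hN : NegInv 𝓑) (s : G)
    {T : Set G} (hT1 : T.ncard = 2 * r) (hT2 : ∀ z ∈ T, s - z ∈ T) :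
    ∃ B ∈ 𝓑, T ⊆ B ∧ ∀ z ∈ B, s - z ∈ B := by
  obtain ⟨B, ⟨hB, hTB⟩, -⟩ := h.2 T hT1
  exact ⟨B, hB, hTB, refl_inv h hT hN s hB hTB (fun z hz => hTB (hT2 z hz)) hT1.ge⟩

/-- In a group of even order some element is not of the form `z + z`. -/
theorem exists_not_double (hG : Even (Nat.card G)) : ∃ s : G, ∀ z : G, z + z ≠ s := by
  by_contra hc
  push Not at hc
  have hinj : Function.Injective (fun z : G => z + z) :=
    Finite.injective_iff_surjective.2 hc
  have := Fact.mk Nat.prime_two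
  obtain ⟨x, hx⟩ := exists_prime_addOrderOf_dvd_card' (G := G) 2 hG.two_dvd
  have h1 : x + x = 0 := by
    rw [← two_nsmul, ← hx]
    exact addOrderOf_nsmul_eq_zero x
  have h2 : x = 0 := hinj (by simpa using h1)
  rw [h2, addOrderOf_zero] at hx
  omega

theorem odd_card (h : IsSteiner (2 * r) k 𝓑) (hT : TransInv 𝓑) (hN : NegInv 𝓑)
    (hn : 2 * r < Nat.card G) (hk : Odd k) : Odd (Nat.card G) := by
  by_contra hc
  rw [Nat.not_odd_iff_even] at hc
  obtain ⟨s, hs⟩ := exists_not_double hc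
  obtain ⟨T, hT1, hT2, -⟩ := exists_inv_set (fun z => s - z) (by intro z; simp) (∅ : Set G)
    (by simp) (by
      intro z hz
      exfalso
      exact hs z (by rw [← hz]; simp [hz]; nth_rw 1 [← hz]; abel)) r (by simp; omega)
  obtain ⟨B, hB, -, hBs⟩ := sym_block h hT hN s hT1 hT2
  have h1 := even_of_invol (fun z => s - z) hBs (by simp) (by
    intro z _ hz
    exact hs z (by nth_rw 1 [← hz]; abel))
  rw [h.1 B hB] at h1
  exact (Nat.not_even_iff_odd.2 hk) h1

theorem double_inj (hG : Odd (Nat.card G)) {x y : G} (h : x + x = y + y) : x = y := by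
  have h1 : 2 • (x - y) = 0 := by
    rw [two_nsmul]
    have : x - y + (x - y) = (x + x) - (y + y) := by abel
    rw [this, h, sub_self]
  have h2 : addOrderOf (x - y) ∣ 2 := addOrderOf_dvd_of_nsmul_eq_zero h1
  have h3 : addOrderOf (x - y) ∣ Nat.card G := addOrderOf_dvd_natCard _
  have h4 : addOrderOf (x - y) ∣ 1 := by
    have := Nat.dvd_gcd h2 h3
    rwa [Nat.Coprime.gcd_eq_one (Nat.coprime_two_left.2 hG)] at this
  have h5 : addOrderOf (x - y) = 1 := Nat.dvd_one.1 h4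
  exact sub_eq_zero.1 (AddMonoid.addOrderOf_eq_one_iff.1 h5)

theorem neg_ne (hG : Odd (Nat.card G)) {x : G} (h : -x = x) : x = 0 :=
  double_inj hG (by nth_rw 1 [← h]; simp)

/-- For odd `k`, symmetric blocks contain the centre. -/
theorem sym_block_zero (h : IsSteiner (2 * r) k 𝓑) (hT : TransInv 𝓑) (hN : NegInv 𝓑)
    (hG : Odd (Nat.card G)) (hk : Odd k) {T : Set G} (hT1 : T.ncard = 2 * r)
    (hT2 : ∀ z ∈ T, -z ∈ T) : ∃ B ∈ 𝓑, T ⊆ B ∧ (∀ z ∈ B, -z ∈ B) ∧ (0 : G) ∈ B := by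
  obtain ⟨B, hB, hTB, hBs⟩ := sym_block h hT hN 0 hT1 (by simpa using hT2)
  simp only [zero_sub] at hBs
  refine ⟨B, hB, hTB, hBs, ?_⟩
  by_contra h0
  have h1 := even_of_invol (fun z => -z) hBs (by simp) (by
    intro z hz hz'
    exact h0 (neg_ne hG hz' ▸ hz))
  rw [h.1 B hB] at h1
  exact (Nat.not_even_iff_odd.2 hk) h1

theorem ncard_union_of_map {V W : Type} [Finite V] (f : V → W) {A B : Set V} (X Y : Set W)
    (hA : ∀ a ∈ A, f a ∈ X) (hB : ∀ b ∈ B, f b ∈ Y) (hXY : Disjoint X Y) :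
    (A ∪ B).ncard = A.ncard + B.ncard := by
  refine Set.ncard_union_eq ?_ (Set.toFinite _) (Set.toFinite _)
  rw [Set.disjoint_left] at hXY ⊢
  exact fun a ha hb => hXY (hA a ha) (hB a hb)

/-- Symmetric unions of pairs of cosets. -/
theorem exists_coset_pairs (hG : Odd (Nat.card G)) (L : AddSubgroup G) (u : ℕ)
    (hu : 2 * u ≤ Nat.card (G ⧸ L)) : ∃ T : Set (G ⧸ L), T.ncard = 2 * u ∧
      (∀ z ∈ T, -z ∈ T) ∧ Disjoint T {0} := by
  have hG' : Odd (Nat.card (G ⧸ L)) := by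
    rw [← card_quot L] at hG
    exact (Nat.odd_mul.1 hG).2
  refine exists_inv_set (fun z => -z) (by simp) {0} (by simp) ?_ u ?_
  · intro z hz
    exact neg_ne hG' hz
  · rw [Set.ncard_singleton]
    omega

theorem zsmul_injOn {x : G} {i : ℕ} (hi : 2 * i + 1 ≤ addOrderOf x) :
    Set.InjOn (fun j : ℤ => j • x) (Set.Icc (-i : ℤ) i) := by
  intro a ha b hb hab
  have h1 : (a - b) • x = 0 := by
    have h0 : a • x = b • x := hab
    rw [sub_zsmul, h0]
    abel
  have h2 := addOrderOf_dvd_iff_zsmul_eq_zero.2 h1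
  have h3 : |a - b| < addOrderOf x := by
    rw [abs_lt]
    have := ha.1
    have := ha.2
    have := hb.1
    have := hb.2
    constructor <;> omega
  exact sub_eq_zero.1 (Int.eq_zero_of_abs_lt_dvd h2 h3)

/-- First case. -/
theorem case_one (h : IsSteiner (2 * r) k 𝓑) (hT : TransInv 𝓑) (hN : NegInv 𝓑)
    (hG : Odd (Nat.card G)) (hk : Odd k) (hn : 2 * r < Nat.card G) (x : G) (u i : ℕ)
    (hr : r = addOrderOf x * u + i) (hi : 2 * i + 1 ≤ addOrderOf x) :
    ∃ B ∈ 𝓑, (∀ z ∈ B, -z ∈ B) ∧ (0 : G) ∈ B ∧ ∀ z ∈ B, x + z ∈ B := by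
  set L := AddSubgroup.zmultiples x with hL
  have hLc : Nat.card L = addOrderOf x := Nat.card_zmultiples x
  have hpos : 0 < addOrderOf x := by omega
  obtain ⟨T', hT'1, hT'2, hT'3⟩ := exists_coset_pairs hG L u (by
    have h1 := card_quot L
    rw [hLc] at h1
    by_contra hc
    have : addOrderOf x * (Nat.card (G ⧸ L) + 1) ≤ addOrderOf x * (2 * u) :=
      Nat.mul_le_mul_left _ (by omega)
    nlinarith)
  have hmk : ∀ j : ℤ, (QuotientAddGroup.mk (j • x) : G ⧸ L) = 0 := by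
    intro j
    rw [QuotientAddGroup.eq_zero_iff]
    exact AddSubgroup.zsmul_mem_zmultiples x j
  set U : Set G := (QuotientAddGroup.mk : G → G ⧸ L) ⁻¹' T' with hU
  have hUc : U.ncard = addOrderOf x * (2 * u) := by rw [hU, card_preimage, hT'1, hLc]
  have hun : ∀ J : Set ℤ, ((fun j : ℤ => j • x) '' J ∪ U).ncard =
      ((fun j : ℤ => j • x) '' J).ncard + U.ncard := by
    intro J
    refine ncard_union_of_map (QuotientAddGroup.mk : G → G ⧸ L) {0} T' ?_ ?_ hT'3.symm
    · rintro _ ⟨j, -, rfl⟩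
      exact hmk j
    · intro b hb
      exact hb
  have hcI : ∀ a b : ℤ, (Set.Icc a b).ncard = (b + 1 - a).toNat := by
    intro a b
    rw [← Finset.coe_Icc, Set.ncard_coe_finset, Int.card_Icc]
  -- the symmetric set
  obtain ⟨B, hB, hTB, hBs, hB0⟩ := sym_block_zero h hT hN hG hk
    (T := (fun j : ℤ => j • x) '' (Set.Icc (-i : ℤ) i \ {0}) ∪ U) (by
      rw [hun, Set.InjOn.ncard_image ((zsmul_injOn hi).mono Set.sdiff_subset), hUc,
        Set.ncard_sdiff_singleton_of_mem (by simp), hcI, hr]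
      have : ((i : ℤ) + 1 - -i).toNat = 2 * i + 1 := by omega
      rw [this]
      ring_nf
      omega) (by
      rintro z (⟨j, hj, rfl⟩ | hz)
      · left
        refine ⟨-j, ⟨?_, ?_⟩, by simp⟩
        · have := hj.1.1
          have := hj.1.2
          constructor <;> omega
        · have := hj.2
          simpa using this
      · right
        rw [hU, Set.mem_preimage, QuotientAddGroup.mk_neg]
        exact hT'2 _ hz)
  have hBJ : ∀ j : ℤ, -(i : ℤ) ≤ j → j ≤ i → j • x ∈ B := by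
    intro j hj hj'
    by_cases h0 : j = 0
    · rw [h0, zero_zsmul]
      exact hB0
    · exact hTB (Or.inl ⟨j, ⟨⟨hj, hj'⟩, h0⟩, rfl⟩)
  have hBU : ∀ z ∈ U, z ∈ B := fun z hz => hTB (Or.inr hz)
  have hUx : ∀ z ∈ U, x + z ∈ U := by
    intro z hz
    rw [hU, Set.mem_preimage, QuotientAddGroup.mk_add]
    have := hmk 1
    rw [one_zsmul] at this
    rw [this, zero_add]
    exact hz
  have hfin := trans_inv h hT x hB (T := (fun j : ℤ => j • x) '' (Set.Icc (-i : ℤ) (i - 1)) ∪ U)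
    (by
      rintro z (⟨j, hj, rfl⟩ | hz)
      · exact hBJ j hj.1 (by have := hj.2; omega)
      · exact hBU z hz) (by
      rintro z (⟨j, hj, rfl⟩ | hz)
      · have h1 : x + j • x = (j + 1) • x := by rw [add_zsmul, one_zsmul, add_comm]
        show x + j • x ∈ B
        rw [h1]
        have := hj.1
        have := hj.2
        exact hBJ _ (by omega) (by omega)
      · exact hBU _ (hUx z hz)) (by
      rw [hun, Set.InjOn.ncard_image ((zsmul_injOn hi).mono (Set.Icc_subset_Icc_right (by omega))),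
        hUc, hcI, hr]
      have : ((i : ℤ) - 1 + 1 - -i).toNat = 2 * i := by omega
      rw [this]
      ring_nf
      omega)
  exact ⟨B, hB, hBs, hB0, hfin⟩

/-- Second case. -/
theorem case_two (h : IsSteiner (2 * r) k 𝓑) (hT : TransInv 𝓑) (hN : NegInv 𝓑)
    (hG : Odd (Nat.card G)) (hk : Odd k) (x : G) (u l : ℕ)
    (hr : 2 * r + 1 = addOrderOf x * (2 * u + 1) + 2 * (l + 1)) (hl : l + 1 < addOrderOf x)
    (L : AddSubgroup G) (hL : L = AddSubgroup.zmultiples x)
    (T' : Set (G ⧸ L)) (hT'1 : T'.ncard = 2 * u)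
    (hT'2 : ∀ z ∈ T', -z ∈ T') (hT'3 : Disjoint T' {0}) (y : G)
    (hy'T : (QuotientAddGroup.mk y : G ⧸ L) ∉ T') (hyL : y ∉ L) :
    ∃ B ∈ 𝓑, (∀ z ∈ B, -z ∈ B) ∧ (0 : G) ∈ B ∧ (∀ z ∈ B, x + z ∈ B) ∧ y ∈ B := by
  have hLc : Nat.card L = addOrderOf x := by
    rw [hL]
    exact Nat.card_zmultiples x
  have hpos : 0 < addOrderOf x := by omega
  have hod : Odd (addOrderOf x) := by
    have h1 : addOrderOf x ∣ Nat.card G := addOrderOf_dvd_natCard x
    exact Odd.of_dvd_nat hG h1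
  have hGL : Odd (Nat.card (G ⧸ L)) := by
    rw [← card_quot L] at hG
    exact (Nat.odd_mul.1 hG).2
  have hT'0 : (0 : G ⧸ L) ∉ T' := fun h0 => Set.disjoint_left.1 hT'3 h0 rfl
  have hy'0 : (QuotientAddGroup.mk y : G ⧸ L) ≠ 0 := fun h0 =>
    hyL ((QuotientAddGroup.eq_zero_iff y).1 h0)
  have hny'T : -(QuotientAddGroup.mk y : G ⧸ L) ∉ T' := fun h0 => hy'T (by simpa using hT'2 _ h0)
  have hyny : -(QuotientAddGroup.mk y : G ⧸ L) ≠ QuotientAddGroup.mk y :=
    fun h0 => hy'0 (neg_ne hGL h0)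
  have hmkL : ∀ z ∈ L, (QuotientAddGroup.mk z : G ⧸ L) = 0 := fun z hz =>
    (QuotientAddGroup.eq_zero_iff z).2 hz
  have hxL : x ∈ L := by
    rw [hL]
    exact AddSubgroup.mem_zmultiples x
  set w : G := x + x with hw
  have hwL : w ∈ L := L.add_mem hxL hxL
  have how : addOrderOf w = addOrderOf x := by
    rw [hw, ← two_nsmul]
    exact Nat.Coprime.addOrderOf_nsmul (Nat.coprime_two_right.2 hod)
  set U : Set G := (QuotientAddGroup.mk : G → G ⧸ L) ⁻¹' T' with hU
  have hUc : U.ncard = addOrderOf x * (2 * u) := by rw [hU, card_preimage, hT'1, hLc]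
  have hUL : ∀ g ∈ L, ∀ z ∈ U, g + z ∈ U := by
    intro g hg z hz
    rw [hU, Set.mem_preimage, QuotientAddGroup.mk_add, hmkL g hg, zero_add]
    exact hz
  have hUn : ∀ z ∈ U, -z ∈ U := by
    intro z hz
    rw [hU, Set.mem_preimage, QuotientAddGroup.mk_neg]
    exact hT'2 _ hz
  have hLset : (L : Set G).ncard = addOrderOf x := by
    rw [← hLc]
    rfl
  -- progressions
  have hprog : ∀ (c : G) (m : ℕ), m ≤ addOrderOf x →
      ((fun j : ℕ => c + j • w) '' Set.Iio m).ncard = m := by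
    intro c m hm
    rw [Set.InjOn.ncard_image]
    · rw [← Finset.coe_Iio, Set.ncard_coe_finset, Nat.card_Iio]
    · intro a ha b hb hab
      have ha' : a < addOrderOf w := lt_of_lt_of_le ha (by rw [how]; exact hm)
      have hb' : b < addOrderOf w := lt_of_lt_of_le hb (by rw [how]; exact hm)
      exact nsmul_injOn_Iio_addOrderOf ha' hb' (add_left_cancel hab)
  have hprogn : ∀ (c : G) (m : ℕ), m ≤ addOrderOf x →
      ((fun j : ℕ => -(c + j • w)) '' Set.Iio m).ncard = m := by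
    intro c m hm
    have h1 : (fun j : ℕ => -(c + j • w)) '' Set.Iio m =
        (fun z => -z) '' ((fun j : ℕ => c + j • w) '' Set.Iio m) := by
      rw [Set.image_image]
    rw [h1, Set.ncard_image_of_injective _ neg_injective, hprog c m hm]
  have hmkc : ∀ (c : G) (j : ℕ), (QuotientAddGroup.mk c : G ⧸ L) = QuotientAddGroup.mk y →
      (QuotientAddGroup.mk (c + j • w) : G ⧸ L) = QuotientAddGroup.mk y := by
    intro c j hc
    rw [QuotientAddGroup.mk_add, hmkL _ (L.nsmul_mem hwL j), add_zero, hc]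
  -- the size of the union of the four pieces
  have hcard : ∀ (c : G) (A : Set G) (m m' : ℕ), (∀ z ∈ A, z ∈ L) →
      (QuotientAddGroup.mk c : G ⧸ L) = QuotientAddGroup.mk y → m ≤ addOrderOf x →
      m' ≤ addOrderOf x →
      ((A ∪ U) ∪ ((fun j : ℕ => c + j • w) '' Set.Iio m ∪
        (fun j : ℕ => -(c + j • w)) '' Set.Iio m')).ncard =
        A.ncard + addOrderOf x * (2 * u) + (m + m') := by
    intro c A m m' hA hc hm hm'
    rw [ncard_union_of_map (QuotientAddGroup.mk : G → G ⧸ L) ({0} ∪ T')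
      {QuotientAddGroup.mk y, -QuotientAddGroup.mk y},
      ncard_union_of_map (QuotientAddGroup.mk : G → G ⧸ L) {0} T',
      ncard_union_of_map (QuotientAddGroup.mk : G → G ⧸ L) {QuotientAddGroup.mk y}
        {-QuotientAddGroup.mk y}, hprog c m hm, hprogn c m' hm', hUc]
    · rintro _ ⟨j, -, rfl⟩
      exact hmkc c j hc
    · rintro _ ⟨j, -, rfl⟩
      show (QuotientAddGroup.mk (-(c + j • w)) : G ⧸ L) = _
      rw [QuotientAddGroup.mk_neg, hmkc c j hc]
    · rw [Set.disjoint_singleton]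
      exact hyny.symm
    · exact fun z hz => hmkL z (hA z hz)
    · exact fun z hz => hz
    · exact hT'3.symm
    · rintro z (hz | hz)
      · exact Or.inl (hmkL z (hA z hz))
      · exact Or.inr hz
    · rintro _ (⟨j, -, rfl⟩ | ⟨j, -, rfl⟩)
      · exact Or.inl (hmkc c j hc)
      · right
        show (QuotientAddGroup.mk (-(c + j • w)) : G ⧸ L) = _
        rw [QuotientAddGroup.mk_neg, hmkc c j hc]
    · rw [Set.disjoint_left]
      rintro z hz (rfl | hz')
      · rcases hz with hz | hz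
        · exact hy'0 hz
        · exact hy'T hz
      · rw [Set.mem_singleton_iff] at hz'
        subst hz'
        rcases hz with hz | hz
        · exact hy'0 (neg_eq_zero.1 hz)
        · exact hny'T hz
  -- the block attached to a representative of the coset of `y`
  have hblock : ∀ c : G, (QuotientAddGroup.mk c : G ⧸ L) = QuotientAddGroup.mk y →
      ∃ B ∈ 𝓑, (∀ z ∈ L, z ∈ B) ∧ (∀ z ∈ U, z ∈ B) ∧ (∀ j < l + 1, c + j • w ∈ B) ∧
        ∀ z ∈ B, -z ∈ B := by
    intro c hc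
    obtain ⟨B, hB, hTB, hBs, hB0⟩ := sym_block_zero h hT hN hG hk
      (T := (((L : Set G) \ {0}) ∪ U) ∪ ((fun j : ℕ => c + j • w) '' Set.Iio (l + 1) ∪
        (fun j : ℕ => -(c + j • w)) '' Set.Iio (l + 1))) (by
        rw [hcard c _ _ _ (fun z hz => hz.1) hc hl.le hl.le,
          Set.ncard_sdiff_singleton_of_mem L.zero_mem, hLset]
        rw [mul_add, mul_one] at hr
        omega) (by
        rintro z ((hz | hz) | (⟨j, hj, rfl⟩ | ⟨j, hj, rfl⟩))
        · exact Or.inl (Or.inl ⟨L.neg_mem hz.1, by simpa using hz.2⟩)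
        · exact Or.inl (Or.inr (hUn z hz))
        · exact Or.inr (Or.inr ⟨j, hj, rfl⟩)
        · exact Or.inr (Or.inl ⟨j, hj, by simp⟩))
    refine ⟨B, hB, ?_, fun z hz => hTB (Or.inl (Or.inr hz)),
      fun j hj => hTB (Or.inr (Or.inl ⟨j, hj, rfl⟩)), hBs⟩
    intro z hz
    by_cases h0 : z = 0
    · rw [h0]
      exact hB0
    · exact hTB (Or.inl (Or.inl ⟨hz, h0⟩))
  obtain ⟨B₁, hB₁, hL₁, hU₁, hP₁, hs₁⟩ := hblock y rfl
  have hmkxy : (QuotientAddGroup.mk (x + y) : G ⧸ L) = QuotientAddGroup.mk y := by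
    rw [QuotientAddGroup.mk_add, hmkL x hxL, zero_add]
  obtain ⟨B₂, hB₂, hL₂, hU₂, hP₂, hs₂⟩ := hblock (x + y) hmkxy
  have heq : (fun z => x + z) '' B₁ = B₂ := by
    refine h.eq_of (hT x B₁ hB₁) hB₂ (T := ((L : Set G) ∪ U) ∪
      ((fun j : ℕ => (x + y) + j • w) '' Set.Iio (l + 1) ∪
        (fun j : ℕ => -((x + y) + j • w)) '' Set.Iio l)) ?_ ?_ ?_
    · rintro z ((hz | hz) | (⟨j, hj, rfl⟩ | ⟨j, hj, rfl⟩))
      · exact ⟨-x + z, hL₁ _ (L.add_mem (L.neg_mem hxL) hz), by simp⟩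
      · exact ⟨-x + z, hU₁ _ (hUL _ (L.neg_mem hxL) z hz), by simp⟩
      · exact ⟨y + j • w, hP₁ j hj, by simp only; abel⟩
      · refine ⟨-(y + (j + 1) • w), hs₁ _ (hP₁ (j + 1) (Nat.add_lt_add_right hj 1)), ?_⟩
        simp only [add_nsmul, one_nsmul, hw]
        abel
    · rintro z ((hz | hz) | (⟨j, hj, rfl⟩ | ⟨j, hj, rfl⟩))
      · exact hL₂ z hz
      · exact hU₂ z hz
      · exact hP₂ j hj
      · exact hs₂ _ (hP₂ j (lt_trans hj (Nat.lt_succ_self l)))
    · rw [hcard (x + y) _ _ _ (fun z hz => hz) hmkxy hl.le (by omega), hLset]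
      rw [mul_add, mul_one] at hr
      omega
  have hcl : ∀ z ∈ B₁, w + z ∈ B₁ := by
    intro z hz
    have h1 : x + z ∈ B₂ := by
      rw [← heq]
      exact ⟨z, hz, rfl⟩
    have h2 := hs₂ _ h1
    rw [← heq] at h2
    obtain ⟨z', hz', hz''⟩ := h2
    have h3 := hs₁ _ hz'
    have h4 : -z' = w + z := by
      have h5 : x + z' = -(x + z) := hz''
      have h6 : z' = -(x + z) - x := by rw [← h5]; abel
      rw [h6, hw]
      abel
    rwa [h4] at h3
  refine ⟨B₁, hB₁, hs₁, hL₁ 0 L.zero_mem, ?_, ?_⟩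
  · refine zmultiples_inv hcl x ?_
    obtain ⟨m, hm⟩ := hod
    rw [AddSubgroup.mem_zmultiples_iff]
    refine ⟨(m + 1 : ℕ), ?_⟩
    have h1 : (2 * m + 1) • x = 0 := by
      rw [← hm]
      exact addOrderOf_nsmul_eq_zero x
    have h2 : w = 2 • x := by rw [hw, two_nsmul]
    rw [natCast_zsmul, h2, ← mul_nsmul, show 2 * (m + 1) = (2 * m + 1) + 1 by ring, add_nsmul,
      h1, zero_add, one_nsmul]
  · have := hP₁ 0 (Nat.succ_pos l)
    rwa [zero_nsmul, add_zero] at this

/-- For odd `k` every `x` leaves some symmetric block through `0` invariant. -/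
theorem exists_inv_block (h : IsSteiner (2 * r) k 𝓑) (hT : TransInv 𝓑) (hN : NegInv 𝓑)
    (hn : 2 * r < Nat.card G) (hk : Odd k) (x : G) :
    ∃ B ∈ 𝓑, (∀ z ∈ B, -z ∈ B) ∧ (0 : G) ∈ B ∧ ∀ z ∈ B, x + z ∈ B := by
  have hG := odd_card h hT hN hn hk
  set e := addOrderOf x with he
  have hpos : 0 < e := addOrderOf_pos x
  obtain ⟨m, hm⟩ : Odd e := Odd.of_dvd_nat hG (addOrderOf_dvd_natCard x)
  have h1 := Nat.div_add_mod r e
  have h2 := Nat.mod_lt r hpos
  by_cases h3 : 2 * (r % e) + 1 ≤ e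
  · exact case_one h hT hN hG hk hn x (r / e) (r % e) h1.symm h3
  · obtain ⟨l, hl⟩ : ∃ l, r % e = m + (l + 1) := ⟨r % e - m - 1, by omega⟩
    set u := r / e with hu
    have hr : 2 * r + 1 = addOrderOf x * (2 * u + 1) + 2 * (l + 1) := by
      rw [← he, mul_add, mul_one, ← mul_assoc, mul_comm e 2, mul_assoc]
      omega
    set L := AddSubgroup.zmultiples x with hL
    have hLc : Nat.card L = addOrderOf x := Nat.card_zmultiples x
    have hbig : 2 * u + 1 < Nat.card (G ⧸ L) := by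
      have h1 := card_quot L
      rw [hLc] at h1
      by_contra hc
      have : addOrderOf x * (Nat.card (G ⧸ L)) ≤ addOrderOf x * (2 * u + 1) :=
        Nat.mul_le_mul_left _ (by omega)
      omega
    obtain ⟨T', hT'1, hT'2, hT'3⟩ := exists_coset_pairs hG L u (by omega)
    obtain ⟨y', hy'⟩ : ∃ y' : G ⧸ L, y' ∉ T' ∪ {0} := by
      by_contra hc
      push Not at hc
      have h1 : (T' ∪ {0}) = Set.univ := Set.eq_univ_of_forall hc
      have h2 : (T' ∪ {0}).ncard = T'.ncard + ({0} : Set (G ⧸ L)).ncard :=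
        Set.ncard_union_eq hT'3 (Set.toFinite _) (Set.toFinite _)
      rw [h1, Set.ncard_univ, Set.ncard_singleton, hT'1] at h2
      omega
    obtain ⟨y, rfl⟩ := QuotientAddGroup.mk_surjective y'
    obtain ⟨B, hB, h4, h5, h6, -⟩ := case_two h hT hN hG hk x u l hr (by omega) L rfl T' hT'1 hT'2 hT'3 y
      (fun h0 => hy' (Or.inl h0)) (fun h0 => hy' (Or.inr ((QuotientAddGroup.eq_zero_iff y).2 h0)))
    exact ⟨B, hB, h4, h5, h6⟩

/-- If the block size is odd then the exponent of the group divides it. -/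
theorem exponent_dvd_of_odd (h : IsSteiner (2 * r) k 𝓑) (hT : TransInv 𝓑) (hN : NegInv 𝓑)
    (hn : 2 * r < Nat.card G) (hk : Odd k) : AddMonoid.exponent G ∣ k := by
  rw [AddMonoid.exponent_dvd]
  intro x
  obtain ⟨B, hB, -, -, hx⟩ := exists_inv_block h hT hN hn hk x
  rw [← h.1 B hB]
  exact addOrderOf_dvd_of_inv hx

/-- A symmetric block through `0` invariant under at least `t / 2` translations is a subgroup. -/
theorem sub_of_inv (h : IsSteiner (2 * r) k 𝓑) (hT : TransInv 𝓑) (hN : NegInv 𝓑) {B : Set G}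
    (hB : B ∈ 𝓑) (hs : ∀ z ∈ B, -z ∈ B) (h0 : (0 : G) ∈ B) (M : AddSubgroup G)
    (hM : r ≤ Nat.card M) (hMB : ∀ g ∈ M, ∀ z ∈ B, g + z ∈ B) :
    ∃ K : AddSubgroup G, (K : Set G) = B ∧ M ≤ K := by
  have hMs : ∀ g ∈ M, g ∈ B := fun g hg => by
    have := hMB g hg 0 h0
    rwa [add_zero] at this
  refine ⟨⟨⟨⟨B, ?_⟩, h0⟩, fun {z} hz => hs z hz⟩, rfl, hMs⟩
  intro z w hz hw
  by_cases hzM : z ∈ M
  · exact hMB z hzM w hw
  · have hz0 : (QuotientAddGroup.mk z : G ⧸ M) ≠ 0 := fun h1 =>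
      hzM ((QuotientAddGroup.eq_zero_iff z).1 h1)
    have h1 := refl_inv h hT hN z hB (T := (QuotientAddGroup.mk : G → G ⧸ M) ⁻¹'
      {0, QuotientAddGroup.mk z}) (by
        intro v hv
        simp only [Set.mem_preimage, Set.mem_insert_iff, Set.mem_singleton_iff] at hv
        rcases hv with hv | hv
        · exact hMs v ((QuotientAddGroup.eq_zero_iff v).1 hv)
        · have h4 : -z + v ∈ M := QuotientAddGroup.eq.1 hv.symm
          have h5 := hMB _ h4 z hz
          rwa [show -z + v + z = v by abel] at h5) (by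
        intro v hv
        simp only [Set.mem_preimage, Set.mem_insert_iff, Set.mem_singleton_iff] at hv
        rcases hv with hv | hv
        · have h4 : -v ∈ M := M.neg_mem ((QuotientAddGroup.eq_zero_iff v).1 hv)
          have h5 := hMB _ h4 z hz
          rwa [show -v + z = z - v by abel] at h5
        · have h4 : -v + z ∈ M := QuotientAddGroup.eq.1 hv
          have h5 := hMs _ h4
          rwa [show -v + z = z - v by abel] at h5) (by
        rw [card_preimage, Set.ncard_pair (Ne.symm hz0), mul_comm]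
        exact Nat.mul_le_mul_right _ hM)
    have h2 := h1 (-w) (hs w hw)
    rwa [sub_neg_eq_add] at h2

/-- For odd `k` every element of order at least `t / 2` is in a block that is a subgroup. -/
theorem exists_sub_block (h : IsSteiner (2 * r) k 𝓑) (hT : TransInv 𝓑) (hN : NegInv 𝓑)
    (hn : 2 * r < Nat.card G) (hk : Odd k) (x : G) (hx : r ≤ addOrderOf x) :
    ∃ K : AddSubgroup G, x ∈ K ∧ (K : Set G) ∈ 𝓑 := by
  obtain ⟨B, hB, hs, h0, hxB⟩ := exists_inv_block h hT hN hn hk x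
  obtain ⟨K, hK, hM⟩ := sub_of_inv h hT hN hB hs h0 (AddSubgroup.zmultiples x)
    (by rw [Nat.card_zmultiples]; exact hx) (zmultiples_inv hxB)
  exact ⟨K, hM (AddSubgroup.mem_zmultiples x), hK ▸ hB⟩

/-- For odd `k` and a cyclic subgroup of order in `[t / 2, t - 1]`. -/
theorem exists_sub_block_cyclic (h : IsSteiner (2 * r) k 𝓑) (hT : TransInv 𝓑) (hN : NegInv 𝓑)
    (hn : 2 * r < Nat.card G) (hk : Odd k) (g : G) (hg : r ≤ addOrderOf g)
    (hg' : addOrderOf g < 2 * r) (hr : 2 ≤ r) (x : G) (hx : x ∉ AddSubgroup.zmultiples g) :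
    ∃ K : AddSubgroup G, AddSubgroup.zmultiples g ≤ K ∧ x ∈ K ∧ (K : Set G) ∈ 𝓑 := by
  have hG := odd_card h hT hN hn hk
  obtain ⟨m, hm⟩ : Odd (addOrderOf g) := Odd.of_dvd_nat hG (addOrderOf_dvd_natCard g)
  obtain ⟨B, hB, hs, h0, hgB, hxB⟩ := case_two h hT hN hG hk g 0 (r - m - 1) (by omega) (by omega)
    _ rfl ∅ (by simp) (by simp) (by simp) x (by simp) hx
  obtain ⟨K, hK, hM⟩ := sub_of_inv h hT hN hB hs h0 (AddSubgroup.zmultiples g)
    (by rw [Nat.card_zmultiples]; exact hg) (zmultiples_inv hgB)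
  refine ⟨K, hM, ?_, hK ▸ hB⟩
  have : x ∈ (K : Set G) := hK ▸ hxB
  exact this

end Pool.Agent.V7H65.SD
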