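import Pool.Agent.V7H65.SD.Quot

/-!
# Partitions of a finite abelian group into subgroups of equal order
-/

set_option autoImplicit false
set_option linter.unusedSectionVars false

namespace Pool.Agent.V7H65.SD

variable {A : Type} [AddCommGroup A] [Finite A]

/-- `𝓟` is a family of subgroups of order `κ` such that every non-zero element is in exactly one of
them. -/
structure IsPart (κ : ℕ) (𝓟 : Set (AddSubgroup A)) : Prop where
  card : ∀ K ∈ 𝓟, Nat.card K = κ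
  cover : ∀ x : A, x ≠ 0 → ∃ K ∈ 𝓟, x ∈ K
  uniq : ∀ K ∈ 𝓟, ∀ K' ∈ 𝓟, ∀ x : A, x ≠ 0 → x ∈ K → x ∈ K' → K = K'

variable {κ : ℕ} {𝓟 : Set (AddSubgroup A)}

theorem IsPart.order_dvd (h : IsPart κ 𝓟) {a b : A} {K : AddSubgroup A} (hK : K ∈ 𝓟)
    (ha : a ∈ K) (ha0 : a ≠ 0) (hb : b ∉ K) : addOrderOf b ∣ addOrderOf a := by
  have hab : a + b ∉ K := fun h1 => hb (by
    have := K.sub_mem h1 ha
    rwa [add_sub_cancel_left] at this)
  have hb0 : b ≠ 0 := fun h1 => hb (h1 ▸ K.zero_mem)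
  have hab0 : a + b ≠ 0 := fun h1 => hab (h1 ▸ K.zero_mem)
  obtain ⟨K₁, hK₁, h1⟩ := h.cover _ hab0
  obtain ⟨K₂, hK₂, h2⟩ := h.cover _ hb0
  have h3 : addOrderOf a • b ∈ K₁ := by
    have := K₁.nsmul_mem h1 (addOrderOf a)
    rwa [nsmul_add, addOrderOf_nsmul_eq_zero, zero_add] at this
  have h4 : addOrderOf a • b ∈ K₂ := K₂.nsmul_mem h2 _
  by_contra hc
  have h5 : addOrderOf a • b ≠ 0 := fun h6 => hc (addOrderOf_dvd_of_nsmul_eq_zero h6)
  have h6 := h.uniq K₁ hK₁ K₂ hK₂ _ h5 h3 h4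
  subst h6
  have h7 : a ∈ K₁ := by
    have := K₁.sub_mem h1 h2
    rwa [add_sub_cancel_right] at this
  have h8 := h.uniq K hK K₁ hK₁ a ha0 ha h7
  exact hab (h8 ▸ h1)

theorem IsPart.exists_prime_smul (h : IsPart κ 𝓟) (hκ0 : 0 < κ) (hκ : κ < Nat.card A) :
    ∃ p : ℕ, p.Prime ∧ ∀ g : A, p • g = 0 := by
  have hcard : ∀ K ∈ 𝓟, ∃ b, b ∉ K := by
    intro K hK
    by_contra hc
    push Not at hc
    have h1 := h.card _ hK
    have h2 : K = ⊤ := (AddSubgroup.eq_top_iff' K).2 hc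
    rw [h2, AddSubgroup.card_top] at h1
    omega
  have hsame : ∀ a b : A, a ≠ 0 → b ≠ 0 → addOrderOf b ∣ addOrderOf a := by
    intro a b ha hb
    obtain ⟨K, hK, haK⟩ := h.cover a ha
    by_cases hbK : b ∈ K
    · obtain ⟨c, hc⟩ := hcard K hK
      have hc0 : c ≠ 0 := fun h1 => hc (h1 ▸ K.zero_mem)
      have h1 := h.order_dvd hK haK ha hc
      obtain ⟨K', hK', hcK'⟩ := h.cover c hc0
      have h2 : b ∉ K' := by
        intro h3
        have h4 := h.uniq K hK K' hK' b hb hbK h3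
        exact hc (h4 ▸ hcK')
      exact (h.order_dvd hK' hcK' hc0 h2).trans h1
    · exact h.order_dvd hK haK ha hbK
  have h1 : Nat.card A ≠ 1 := by omega
  obtain ⟨p, hp, hpd⟩ := Nat.exists_prime_and_dvd h1
  have := Fact.mk hp
  obtain ⟨x, hx⟩ := exists_prime_addOrderOf_dvd_card' (G := A) p hpd
  have hx0 : x ≠ 0 := by
    intro h2
    rw [h2, addOrderOf_zero] at hx
    exact hp.one_lt.ne hx
  refine ⟨p, hp, fun g => ?_⟩
  by_cases hg : g = 0
  · rw [hg, nsmul_zero]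
  · have h2 := hsame x g hx0 hg
    rw [hx] at h2
    exact addOrderOf_dvd_iff_nsmul_eq_zero.1 h2

theorem card_eq_pow {A : Type} [AddCommGroup A] [Finite A] {p : ℕ} (hp : p.Prime)
    (hA : ∀ g : A, p • g = 0) : ∃ b : ℕ, Nat.card A = p ^ b := by
  have := Fact.mk hp
  let _ : Module (ZMod p) A := AddCommGroup.zmodModule hA
  have := Fintype.ofFinite A
  refine ⟨Module.finrank (ZMod p) A, ?_⟩
  rw [Nat.card_eq_fintype_card, Module.card_eq_pow_finrank (K := ZMod p) (V := A), ZMod.card]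

/-- Counting a set split into classes of equal size. -/
theorem dvd_of_classes {V : Type} [Finite V] {X : Set V} {𝓒 : Set (Set V)} {m : ℕ}
    (h1 : ∀ C ∈ 𝓒, C ⊆ X) (h2 : ∀ C ∈ 𝓒, C.ncard = m) (h3 : ∀ x ∈ X, ∃ C ∈ 𝓒, x ∈ C)
    (h4 : ∀ C ∈ 𝓒, ∀ C' ∈ 𝓒, ∀ x ∈ C, x ∈ C' → C = C') : m ∣ X.ncard := by
  classical
  have := Fintype.ofFinite V
  have hX : X = ⋃₀ 𝓒 := by
    ext x
    constructor
    · intro hx
      obtain ⟨C, hC, hxC⟩ := h3 x hx
      exact ⟨C, hC, hxC⟩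
    · rintro ⟨C, hC, hxC⟩
      exact h1 C hC hxC
  have h5 : X.toFinset = 𝓒.toFinset.biUnion (fun C => C.toFinset) := by
    ext x
    simp [hX]
  rw [Set.ncard_eq_toFinset_card', h5, Finset.card_biUnion]
  · rw [Finset.sum_congr rfl (g := fun _ => m)]
    · rw [Finset.sum_const, smul_eq_mul]
      exact Dvd.intro_left _ rfl
    · intro C hC
      rw [← Set.ncard_eq_toFinset_card']
      exact h2 C (Set.mem_toFinset.1 hC)
  · intro C hC C' hC' hne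
    rw [Function.onFun, Finset.disjoint_left]
    intro x hx hx'
    exact hne (h4 C (Set.mem_toFinset.1 hC) C' (Set.mem_toFinset.1 hC') x
      (Set.mem_toFinset.1 hx) (Set.mem_toFinset.1 hx'))

theorem ncard_coe_sub (K : AddSubgroup A) : (K : Set A).ncard = Nat.card K := rfl

theorem IsPart.sub_one_dvd (h : IsPart κ 𝓟) : κ - 1 ∣ Nat.card A - 1 := by
  have h1 : ((Set.univ : Set A) \ {0}).ncard = Nat.card A - 1 := by
    rw [Set.ncard_sdiff_singleton_of_mem (Set.mem_univ _), Set.ncard_univ]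
  rw [← h1]
  refine dvd_of_classes (𝓒 := {C | ∃ K ∈ 𝓟, C = (K : Set A) \ {0}}) ?_ ?_ ?_ ?_
  · rintro _ ⟨K, -, rfl⟩
    exact fun z hz => ⟨Set.mem_univ z, hz.2⟩
  · rintro _ ⟨K, hK, rfl⟩
    rw [Set.ncard_sdiff_singleton_of_mem K.zero_mem, ncard_coe_sub, h.card K hK]
  · rintro x ⟨-, hx⟩
    obtain ⟨K, hK, hxK⟩ := h.cover x hx
    exact ⟨(K : Set A) \ {0}, ⟨K, hK, rfl⟩, hxK, hx⟩
  · rintro _ ⟨K, hK, rfl⟩ _ ⟨K', hK', rfl⟩ x hx hx'
    rw [h.uniq K hK K' hK' x hx.2 hx.1 hx'.1]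

theorem dvd_of_pow_sub_one_dvd {p a b : ℕ} (hp : 1 < p) (h : p ^ a - 1 ∣ p ^ b - 1) : a ∣ b := by
  have h1 := Nat.pow_sub_one_gcd_pow_sub_one p a b
  rw [Nat.gcd_eq_left h] at h1
  have h2 : 0 < p ^ a := Nat.pow_pos (by omega)
  have h3 : 0 < p ^ (Nat.gcd a b) := Nat.pow_pos (by omega)
  have h4 : p ^ a = p ^ (Nat.gcd a b) := by omega
  have h5 : a = Nat.gcd a b := Nat.pow_right_injective hp h4
  rw [h5]
  exact Nat.gcd_dvd_right a b

/-- The structure theorem. -/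
theorem IsPart.structure_thm (h : IsPart κ 𝓟) (hκ0 : 0 < κ) (hκ : κ < Nat.card A) :
    ∃ p a m : ℕ, p.Prime ∧ 0 < a ∧ 1 < m ∧ κ = p ^ a ∧ Nat.card A = (p ^ a) ^ m ∧
      ∀ g : A, p • g = 0 := by
  obtain ⟨p, hp, hpg⟩ := h.exists_prime_smul hκ0 hκ
  obtain ⟨b, hb⟩ := card_eq_pow hp hpg
  obtain ⟨x, hx⟩ : ∃ x : A, x ≠ 0 := by
    by_contra hc
    push Not at hc
    have : Subsingleton A := ⟨fun a b => by rw [hc a, hc b]⟩
    have := Nat.card_of_subsingleton (0 : A)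
    omega
  obtain ⟨K, hK, hxK⟩ := h.cover x hx
  obtain ⟨a, ha⟩ := card_eq_pow (A := K) hp (by
    rintro ⟨g, hg⟩
    exact Subtype.ext (hpg g))
  have hka : κ = p ^ a := by rw [← ha, h.card K hK]
  have ha0 : 0 < a := by
    rcases Nat.eq_zero_or_pos a with h0 | h0
    · exfalso
      rw [h0, pow_zero] at ha
      have h1 := AddSubgroup.eq_bot_of_card_eq K ha
      rw [h1] at hxK
      exact hx (AddSubgroup.mem_bot.1 hxK)
    · exact h0
  obtain ⟨m, hm⟩ : a ∣ b := by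
    refine dvd_of_pow_sub_one_dvd hp.one_lt ?_
    rw [← hka, ← hb]
    exact h.sub_one_dvd
  refine ⟨p, a, m, hp, ha0, ?_, hka, by rw [hb, hm, pow_mul], hpg⟩
  rw [hka, hb] at hκ
  have h1 := (Nat.pow_lt_pow_iff_right hp.one_lt).1 hκ
  by_contra hc
  have : a * m ≤ a * 1 := Nat.mul_le_mul_left _ (by omega)
  omega

end Pool.Agent.V7H65.SD
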