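import Pool.Agent.V7H65.SD.Basic

/-!
# The Steiner system on the quotient group
-/

set_option autoImplicit false
set_option linter.unusedSectionVars false

namespace Pool.Agent.V7H65.SD

variable {G : Type} [AddCommGroup G] [Finite G] {t k : ℕ} {𝓑 : Set (Set G)}

/-- A block containing at least `t` points forming a union of `H`-cosets is a union of
`H`-cosets. -/
theorem block_inv (h : IsSteiner t k 𝓑) (hT : TransInv 𝓑) (H : AddSubgroup G) {B : Set G}
    (hB : B ∈ 𝓑) (C : Set (G ⧸ H)) (hCB : (QuotientAddGroup.mk : G → G ⧸ H) ⁻¹' C ⊆ B)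
    (hC : t ≤ Nat.card H * C.ncard) : ∀ g ∈ H, ∀ z ∈ B, g + z ∈ B := by
  intro g hg
  refine trans_inv h hT g hB hCB ?_ (by rwa [card_preimage])
  intro z hz
  refine hCB ?_
  have : (QuotientAddGroup.mk (g + z) : G ⧸ H) = QuotientAddGroup.mk z := by
    rw [QuotientAddGroup.eq]
    simpa using hg
  rw [Set.mem_preimage, this]
  exact hz

theorem card_quot (H : AddSubgroup G) : Nat.card H * Nat.card (G ⧸ H) = Nat.card G := by
  rw [mul_comm]
  exact (AddSubgroup.card_eq_card_quotient_mul_card_addSubgroup H).symm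

theorem exists_sub {V : Type} [Finite V] {n : ℕ} (h : n ≤ Nat.card V) :
    ∃ S : Set V, S.ncard = n := by
  rw [← Set.ncard_univ] at h
  obtain ⟨S, -, hS⟩ := exists_sub_card h
  exact ⟨S, hS⟩

theorem card_dvd_block (h : IsSteiner t k 𝓑) (hT : TransInv 𝓑) (H : AddSubgroup G)
    (hH : Nat.card H ∣ t) (ht : t ≤ Nat.card G) : Nat.card H ∣ k := by
  obtain ⟨c, rfl⟩ := hH
  have hpos : 0 < Nat.card H := Nat.card_pos
  obtain ⟨C, hC⟩ : ∃ C : Set (G ⧸ H), C.ncard = c := by
    refine exists_sub ?_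
    rw [← card_quot H] at ht
    exact Nat.le_of_mul_le_mul_left ht hpos
  obtain ⟨B, ⟨hB, hCB⟩, -⟩ := h.2 _ (show ((QuotientAddGroup.mk : G → G ⧸ H) ⁻¹' C).ncard = _ by
    rw [card_preimage, hC])
  rw [← h.1 B hB]
  exact card_dvd_of_inv H (block_inv h hT H hB C hCB (by rw [hC]))

theorem quot_steiner (h : IsSteiner t k 𝓑) (hT : TransInv 𝓑) (H : AddSubgroup G)
    (hH : Nat.card H ∣ t) : IsSteiner (t / Nat.card H) (k / Nat.card H) (quot H 𝓑) := by
  obtain ⟨c, rfl⟩ := hH
  have hpos : 0 < Nat.card H := Nat.card_pos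
  rw [Nat.mul_div_cancel_left _ hpos]
  constructor
  · intro C hC
    have h1 := h.1 _ hC
    rw [card_preimage] at h1
    rw [← h1, Nat.mul_div_cancel_left _ hpos]
  · intro C hC
    obtain ⟨B, ⟨hB, hCB⟩, hu⟩ := h.2 _
      (show ((QuotientAddGroup.mk : G → G ⧸ H) ⁻¹' C).ncard = _ by rw [card_preimage, hC])
    have hBH := block_inv h hT H hB C hCB (by rw [hC])
    refine ⟨(QuotientAddGroup.mk : G → G ⧸ H) '' B, ⟨?_, ?_⟩, ?_⟩
    · show _ ⁻¹' _ ∈ 𝓑
      rw [preimage_image H hBH]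
      exact hB
    · intro c hc
      obtain ⟨z, rfl⟩ := QuotientAddGroup.mk_surjective c
      exact ⟨z, hCB hc, rfl⟩
    · rintro C' ⟨hC', hCC'⟩
      have h1 := hu _ ⟨hC', Set.preimage_mono hCC'⟩
      rw [← h1, Set.image_preimage_eq _ QuotientAddGroup.mk_surjective]

theorem quot_trans (hT : TransInv 𝓑) (H : AddSubgroup G) : TransInv (quot H 𝓑) := by
  intro g' C hC
  obtain ⟨g, rfl⟩ := QuotientAddGroup.mk_surjective g'
  have h1 := hT g _ hC
  show _ ⁻¹' _ ∈ 𝓑
  convert h1 using 1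
  ext z
  simp only [Set.mem_preimage, Set.mem_image]
  constructor
  · rintro ⟨c, hc, hcz⟩
    refine ⟨-g + z, ?_, by abel⟩
    have : (QuotientAddGroup.mk (-g + z) : G ⧸ H) = c := by
      rw [QuotientAddGroup.mk_add, ← hcz, QuotientAddGroup.mk_neg]
      abel
    rwa [this]
  · rintro ⟨w, hw, rfl⟩
    exact ⟨_, hw, by rw [QuotientAddGroup.mk_add]⟩

theorem quot_neg (hN : NegInv 𝓑) (H : AddSubgroup G) : NegInv (quot H 𝓑) := by
  intro C hC
  have h1 := hN _ hC
  show _ ⁻¹' _ ∈ 𝓑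
  convert h1 using 1
  ext z
  simp only [Set.mem_preimage, Set.mem_image]
  constructor
  · rintro ⟨c, hc, hcz⟩
    refine ⟨-z, ?_, by abel⟩
    have : (QuotientAddGroup.mk (-z) : G ⧸ H) = c := by
      rw [QuotientAddGroup.mk_neg, ← hcz]
      abel
    rwa [this]
  · rintro ⟨w, hw, rfl⟩
    exact ⟨_, hw, by rw [QuotientAddGroup.mk_neg]⟩

/-- The converse of Lagrange's theorem for finite abelian groups. -/
theorem exists_subgroup (d : ℕ) (hd : d ∣ Nat.card G) : ∃ H : AddSubgroup G, Nat.card H = d := by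
  induction d using Nat.strong_induction_on with
  | _ d ih =>
    have hG : 0 < Nat.card G := Nat.card_pos
    have hd0 : 0 < d := Nat.pos_of_dvd_of_pos hd hG
    by_cases h1 : d = 1
    · exact ⟨⊥, by rw [h1]; simp⟩
    · obtain ⟨p, hp, e, rfl⟩ := Nat.exists_prime_and_dvd h1
      have he0 : 0 < e := Nat.pos_of_mul_pos_left hd0
      obtain ⟨H, hH⟩ := ih e (by nlinarith [hp.two_le]) ((Dvd.intro_left p rfl).trans hd)
      have h2 : p ∣ Nat.card (G ⧸ H) := by
        rw [← card_quot H, hH, mul_comm p e] at hd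
        exact Nat.dvd_of_mul_dvd_mul_left he0 hd
      have := Fact.mk hp
      obtain ⟨x, hx⟩ := exists_prime_addOrderOf_dvd_card' (G := G ⧸ H) p h2
      refine ⟨(AddSubgroup.zmultiples x).comap (QuotientAddGroup.mk' H), ?_⟩
      have h3 := card_preimage H (AddSubgroup.zmultiples x : Set (G ⧸ H))
      rw [← Nat.card_coe_set_eq, ← Nat.card_coe_set_eq] at h3
      have h4 : Nat.card (AddSubgroup.zmultiples x : Set (G ⧸ H)) = p := by
        rw [← hx]
        exact Nat.card_zmultiples x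
      rw [h4, hH] at h3
      rw [mul_comm]
      exact h3

end Pool.Agent.V7H65.SD
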