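import Pool.Agent.V7H65.SD.Two

/-!
# The structure when the group has a subgroup of order `t / 2`, and counting consequences
-/

set_option autoImplicit false
set_option linter.unusedSectionVars false

namespace Pool.Agent.V7H65.SD

variable {G : Type} [AddCommGroup G] [Finite G] {r k : ℕ} {𝓑 : Set (Set G)}

theorem quot_two (h : IsSteiner (2 * r) k 𝓑) (hT : TransInv 𝓑) (hr : 0 < r)
    {H : AddSubgroup G} (hH : Nat.card H = r) : IsSteiner 2 (k / r) (quot H 𝓑) := by
  have h1 := quot_steiner h hT H (by rw [hH]; exact Dvd.intro_left 2 rfl)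
  rwa [hH, Nat.mul_div_cancel _ hr] at h1

theorem quot_bounds (h : IsSteiner (2 * r) k 𝓑) (hT : TransInv 𝓑)
    (hk : 2 * r < k) (hn : k < Nat.card G) {H : AddSubgroup G} (hH : Nat.card H = r) :
    k = r * (k / r) ∧ 2 < k / r ∧ k / r < Nat.card (G ⧸ H) := by
  have h1 : r ∣ k := by
    have := card_dvd_block h hT H (by rw [hH]; exact Dvd.intro_left 2 rfl) (by omega)
    rwa [hH] at this
  have h2 : r * (k / r) = k := Nat.mul_div_cancel' h1
  have h3 := card_quot H
  rw [hH] at h3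
  refine ⟨h2.symm, ?_, ?_⟩
  · by_contra hc
    have : r * (k / r) ≤ r * 2 := Nat.mul_le_mul_left _ (by omega)
    omega
  · by_contra hc
    have : r * Nat.card (G ⧸ H) ≤ r * (k / r) := Nat.mul_le_mul_left _ (by omega)
    omega

/-- The blocks that are subgroups containing `H` split the rest of the group. -/
theorem exists_unique_sub (h : IsSteiner (2 * r) k 𝓑) (hT : TransInv 𝓑) (hN : NegInv 𝓑)
    (hr : 0 < r) (hk : 2 * r < k) (hn : k < Nat.card G) {H : AddSubgroup G}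
    (hH : Nat.card H = r) {x : G} (hx : x ∉ H) :
    ∃! K : AddSubgroup G, H ≤ K ∧ x ∈ K ∧ (K : Set G) ∈ 𝓑 := by
  obtain ⟨h1, h2, h3⟩ := quot_bounds h hT hk hn hH
  have hq := quot_two h hT hr hH
  have hx0 : (QuotientAddGroup.mk x : G ⧸ H) ≠ 0 := fun h4 =>
    hx ((QuotientAddGroup.eq_zero_iff x).1 h4)
  obtain ⟨K', hK', hxK'⟩ := exists_blockSub hq (quot_trans hT H) (quot_neg hN H) h2 hx0
  refine ⟨K'.comap (QuotientAddGroup.mk' H), ⟨?_, hxK', hK'⟩, ?_⟩
  · intro z hz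
    have : (QuotientAddGroup.mk z : G ⧸ H) = 0 := (QuotientAddGroup.eq_zero_iff z).2 hz
    show (QuotientAddGroup.mk z : G ⧸ H) ∈ K'
    rw [this]
    exact K'.zero_mem
  · rintro K ⟨hHK, hxK, hK⟩
    refine SetLike.coe_injective (h.eq_of hK hK' (T := (QuotientAddGroup.mk : G → G ⧸ H) ⁻¹'
      {0, QuotientAddGroup.mk x}) ?_ ?_ ?_)
    · intro z hz
      simp only [Set.mem_preimage, Set.mem_insert_iff, Set.mem_singleton_iff] at hz
      rcases hz with hz | hz
      · exact hHK ((QuotientAddGroup.eq_zero_iff z).1 hz)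
      · have h4 : -z + x ∈ H := QuotientAddGroup.eq.1 hz
        have h5 := K.sub_mem hxK (hHK h4)
        rwa [show x - (-z + x) = z by abel] at h5
    · intro z hz
      simp only [Set.mem_preimage, Set.mem_insert_iff, Set.mem_singleton_iff] at hz
      show (QuotientAddGroup.mk z : G ⧸ H) ∈ K'
      rcases hz with hz | hz
      · rw [hz]
        exact K'.zero_mem
      · rw [hz]
        exact hxK'
    · rw [card_preimage, hH, Set.ncard_pair (Ne.symm hx0), mul_comm]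

/-- The blocks that are unions of `H`-cosets are cosets of subgroups. -/
theorem inv_block_coset (h : IsSteiner (2 * r) k 𝓑) (hT : TransInv 𝓑) (hN : NegInv 𝓑)
    (hr : 0 < r) (hk : 2 * r < k) (hn : k < Nat.card G) {H : AddSubgroup G}
    (hH : Nat.card H = r) {B : Set G} (hB : B ∈ 𝓑) (hBH : ∀ g ∈ H, ∀ z ∈ B, g + z ∈ B) :
    ∃ K : AddSubgroup G, H ≤ K ∧ (K : Set G) ∈ 𝓑 ∧ ∃ c : G, B = (fun z => c + z) '' (K : Set G) := by
  obtain ⟨h1, h2, h3⟩ := quot_bounds h hT hk hn hH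
  have hBne : B.Nonempty := by
    rw [← Set.ncard_pos, h.1 B hB]
    omega
  obtain ⟨c, hc⟩ := hBne
  obtain ⟨w, hw, hw'⟩ : ∃ w ∈ B, w ∉ (fun z => c + z) '' (H : Set G) := by
    refine Set.exists_mem_notMem_of_ncard_lt_ncard ?_ (Set.toFinite _)
    rw [Set.ncard_image_of_injective _ (add_right_injective c), h.1 B hB]
    have h4 : (H : Set G).ncard = r := by
      rw [← hH]
      rfl
    omega
  have hx : -c + w ∉ H := fun h4 => hw' ⟨-c + w, h4, by simp⟩
  obtain ⟨K, ⟨hHK, hxK, hK⟩, -⟩ := exists_unique_sub h hT hN hr hk hn hH hx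
  refine ⟨K, hHK, hK, c, ?_⟩
  refine h.eq_of hB (hT c _ hK) (T := (QuotientAddGroup.mk : G → G ⧸ H) ⁻¹'
    {QuotientAddGroup.mk c, QuotientAddGroup.mk w}) ?_ ?_ ?_
  · intro z hz
    simp only [Set.mem_preimage, Set.mem_insert_iff, Set.mem_singleton_iff] at hz
    rcases hz with hz | hz
    · have h4 : -c + z ∈ H := QuotientAddGroup.eq.1 hz.symm
      have h5 := hBH _ h4 c hc
      rwa [show -c + z + c = z by abel] at h5
    · have h4 : -w + z ∈ H := QuotientAddGroup.eq.1 hz.symm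
      have h5 := hBH _ h4 w hw
      rwa [show -w + z + w = z by abel] at h5
  · intro z hz
    simp only [Set.mem_preimage, Set.mem_insert_iff, Set.mem_singleton_iff] at hz
    rcases hz with hz | hz
    · have h4 : -c + z ∈ H := QuotientAddGroup.eq.1 hz.symm
      exact ⟨-c + z, hHK h4, by simp⟩
    · have h4 : -w + z ∈ H := QuotientAddGroup.eq.1 hz.symm
      refine ⟨-c + z, ?_, by simp⟩
      have h5 := K.add_mem hxK (hHK h4)
      rwa [show -c + w + (-w + z) = -c + z by abel] at h5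
  · have h4 : (QuotientAddGroup.mk c : G ⧸ H) ≠ QuotientAddGroup.mk w := fun h5 =>
      hx (QuotientAddGroup.eq.1 h5)
    rw [card_preimage, hH, Set.ncard_pair h4, mul_comm]

/-- Every `x` outside `H` is in exactly one subgroup containing `H` that is a block. -/
def Good (H : AddSubgroup G) (𝓑 : Set (Set G)) : Prop :=
  ∀ x : G, x ∉ H → ∃! K : AddSubgroup G, H ≤ K ∧ x ∈ K ∧ (K : Set G) ∈ 𝓑

theorem good_of_card (h : IsSteiner (2 * r) k 𝓑) (hT : TransInv 𝓑) (hN : NegInv 𝓑)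
    (hr : 0 < r) (hk : 2 * r < k) (hn : k < Nat.card G) {H : AddSubgroup G}
    (hH : Nat.card H = r) : Good H 𝓑 :=
  fun _ hx => exists_unique_sub h hT hN hr hk hn hH hx

theorem good_of_exists (h : IsSteiner (2 * r) k 𝓑) {H : AddSubgroup G} (hH : r ≤ Nat.card H)
    (hex : ∀ x : G, x ∉ H → ∃ K : AddSubgroup G, H ≤ K ∧ x ∈ K ∧ (K : Set G) ∈ 𝓑) :
    Good H 𝓑 := by
  intro x hx
  obtain ⟨K, hK⟩ := hex x hx
  refine ⟨K, hK, ?_⟩
  rintro K' hK'
  have hx0 : (QuotientAddGroup.mk x : G ⧸ H) ≠ 0 := fun h4 =>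
    hx ((QuotientAddGroup.eq_zero_iff x).1 h4)
  have key : ∀ K : AddSubgroup G, H ≤ K → x ∈ K →
      (QuotientAddGroup.mk : G → G ⧸ H) ⁻¹' {0, QuotientAddGroup.mk x} ⊆ K := by
    intro K hHK hxK z hz
    simp only [Set.mem_preimage, Set.mem_insert_iff, Set.mem_singleton_iff] at hz
    rcases hz with hz | hz
    · exact hHK ((QuotientAddGroup.eq_zero_iff z).1 hz)
    · have h4 : -z + x ∈ H := QuotientAddGroup.eq.1 hz
      have h5 := K.sub_mem hxK (hHK h4)
      rwa [show x - (-z + x) = z by abel] at h5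
  refine SetLike.coe_injective (h.eq_of hK'.2.2 hK.2.2 (key K' hK'.1 hK'.2.1)
    (key K hK.1 hK.2.1) ?_)
  rw [card_preimage, Set.ncard_pair (Ne.symm hx0), mul_comm]
  exact Nat.mul_le_mul_right _ hH

theorem good_of_cyclic (h : IsSteiner (2 * r) k 𝓑) (hT : TransInv 𝓑) (hN : NegInv 𝓑)
    (hn : 2 * r < Nat.card G) (hk : Odd k) (g : G) (hg : r ≤ addOrderOf g)
    (hg' : addOrderOf g < 2 * r) (hr : 2 ≤ r) : Good (AddSubgroup.zmultiples g) 𝓑 :=
  good_of_exists h (by rw [Nat.card_zmultiples]; exact hg)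
    (fun x hx => exists_sub_block_cyclic h hT hN hn hk g hg hg' hr x hx)

theorem good_of_primes (h : IsSteiner (2 * r) k 𝓑) (hT : TransInv 𝓑) (hN : NegInv 𝓑)
    (hn : 2 * r < Nat.card G) (hk : Odd k)
    (hp : ∀ q : ℕ, q.Prime → q ∣ Nat.card G → 2 * r ≤ q) : Good (⊥ : AddSubgroup G) 𝓑 := by
  have hord : ∀ x : G, x ≠ 0 → 2 * r ≤ addOrderOf x := by
    intro x hx
    have h1 : addOrderOf x ≠ 1 := fun h1 => hx (AddMonoid.addOrderOf_eq_one_iff.1 h1)
    obtain ⟨q, hq, hqd⟩ := Nat.exists_prime_and_dvd h1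
    exact (hp q hq (hqd.trans (addOrderOf_dvd_natCard x))).trans
      (Nat.le_of_dvd (addOrderOf_pos x) hqd)
  intro x hx
  have hx0 : x ≠ 0 := fun h1 => hx (AddSubgroup.mem_bot.2 h1)
  obtain ⟨K, hxK, hK⟩ := exists_sub_block h hT hN hn hk x
    (le_trans (by omega) (hord x hx0))
  refine ⟨K, ⟨bot_le, hxK, hK⟩, ?_⟩
  rintro K' ⟨-, hxK', hK'⟩
  refine SetLike.coe_injective (h.eq_of hK' hK (T := (AddSubgroup.zmultiples x : Set G)) ?_ ?_ ?_)
  · exact AddSubgroup.zmultiples_le_of_mem hxK'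
  · exact AddSubgroup.zmultiples_le_of_mem hxK
  · rw [ncard_coe_sub, Nat.card_zmultiples]
    exact hord x hx0

/-- The parameters. -/
theorem params_of_good (h : IsSteiner (2 * r) k 𝓑) (hk : 0 < k) (hn : k < Nat.card G)
    {H : AddSubgroup G} (hHn : Nat.card H < Nat.card G) (hH : Good H 𝓑) :
    ∃ p a m : ℕ, p.Prime ∧ 0 < a ∧ 1 < m ∧ k = Nat.card H * p ^ a ∧
      Nat.card G = Nat.card H * (p ^ a) ^ m ∧ ∀ g : G, p • g ∈ H := by
  have hpos : 0 < Nat.card H := Nat.card_pos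
  have hcom : ∀ K' : AddSubgroup (G ⧸ H),
      Nat.card (K'.comap (QuotientAddGroup.mk' H)) = Nat.card H * Nat.card K' := by
    intro K'
    exact card_preimage H (K' : Set (G ⧸ H))
  have hpart : IsPart (k / Nat.card H)
      {K' : AddSubgroup (G ⧸ H) | ((K'.comap (QuotientAddGroup.mk' H) : AddSubgroup G) : Set G) ∈ 𝓑}
      := by
    constructor
    · intro K' hK'
      have h1 := h.1 _ hK'
      rw [ncard_coe_sub, hcom] at h1
      rw [← h1, Nat.mul_div_cancel_left _ hpos]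
    · intro x' hx'
      obtain ⟨x, rfl⟩ := QuotientAddGroup.mk_surjective x'
      have hxH : x ∉ H := fun h1 => hx' ((QuotientAddGroup.eq_zero_iff x).2 h1)
      obtain ⟨K, ⟨hHK, hxK, hK⟩, -⟩ := hH x hxH
      refine ⟨K.map (QuotientAddGroup.mk' H), ?_, ⟨x, hxK, rfl⟩⟩
      have h1 : (K.map (QuotientAddGroup.mk' H)).comap (QuotientAddGroup.mk' H) = K := by
        rw [AddSubgroup.comap_map_eq, QuotientAddGroup.ker_mk', sup_eq_left]
        exact hHK
      show (((K.map (QuotientAddGroup.mk' H)).comap (QuotientAddGroup.mk' H) : AddSubgroup G) :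
        Set G) ∈ 𝓑
      rw [h1]
      exact hK
    · intro K₁ hK₁ K₂ hK₂ x' hx' h1 h2
      obtain ⟨x, rfl⟩ := QuotientAddGroup.mk_surjective x'
      have hxH : x ∉ H := fun h1 => hx' ((QuotientAddGroup.eq_zero_iff x).2 h1)
      have hle : ∀ K' : AddSubgroup (G ⧸ H), H ≤ K'.comap (QuotientAddGroup.mk' H) := by
        intro K' z hz
        show (QuotientAddGroup.mk z : G ⧸ H) ∈ K'
        rw [(QuotientAddGroup.eq_zero_iff z).2 hz]
        exact K'.zero_mem
      have h3 := (hH x hxH).unique ⟨hle K₁, h1, hK₁⟩ ⟨hle K₂, h2, hK₂⟩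
      exact AddSubgroup.comap_injective (QuotientAddGroup.mk'_surjective H) h3
  have hdvd : Nat.card H ∣ k := by
    obtain ⟨x, hx⟩ : ∃ x, x ∉ H := by
      by_contra hc
      push Not at hc
      have h2 : H = ⊤ := (AddSubgroup.eq_top_iff' H).2 hc
      rw [h2, AddSubgroup.card_top] at hHn
      omega
    obtain ⟨K, ⟨hHK, hxK, hK⟩, -⟩ := hH x hx
    have h1 := AddSubgroup.card_dvd_of_le hHK
    have h2 := h.1 _ hK
    rw [ncard_coe_sub] at h2
    rwa [h2] at h1
  have h1 : Nat.card H * (k / Nat.card H) = k := Nat.mul_div_cancel' hdvd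
  have h2 := card_quot H
  obtain ⟨p, a, m, hp, ha, hm, hκ, hA, hpg⟩ := hpart.structure_thm
    (Nat.div_pos (Nat.le_of_dvd hk hdvd) hpos) (by
      by_contra hc
      have : Nat.card H * Nat.card (G ⧸ H) ≤ Nat.card H * (k / Nat.card H) :=
        Nat.mul_le_mul_left _ (by omega)
      omega)
  refine ⟨p, a, m, hp, ha, hm, by rw [← hκ, h1], by rw [← hA, h2], ?_⟩
  intro g
  have h4 := hpg (QuotientAddGroup.mk g)
  rw [← QuotientAddGroup.mk_nsmul, QuotientAddGroup.eq_zero_iff] at h4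
  exact h4

/-- Elementary abelian groups: the blocks that are subgroups form a `q`-Steiner system. -/
theorem q_steiner (h : IsSteiner (2 * r) k 𝓑) {p s : ℕ} (hp : p.Prime)
    (hrs : 2 * r ≤ p ^ (s + 1)) (hgood : ∀ H : AddSubgroup G, Nat.card H = p ^ s → Good H 𝓑)
    (L : AddSubgroup G) (hL : Nat.card L = p ^ (s + 1)) :
    ∃! K : AddSubgroup G, L ≤ K ∧ (K : Set G) ∈ 𝓑 := by
  obtain ⟨H', hH'⟩ := exists_subgroup (G := L) (p ^ s) (by rw [hL, pow_succ]; exact Dvd.intro _ rfl)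
  set H : AddSubgroup G := H'.map L.subtype with hHdef
  have hH : Nat.card H = p ^ s := by
    rw [← hH']
    exact Nat.card_congr (H'.equivMapOfInjective L.subtype L.subtype_injective).toEquiv.symm
  have hHL : H ≤ L := by
    rintro _ ⟨z, -, rfl⟩
    exact z.2
  obtain ⟨x, hxL, hxH⟩ : ∃ x ∈ (L : Set G), x ∉ (H : Set G) := by
    refine Set.exists_mem_notMem_of_ncard_lt_ncard ?_ (Set.toFinite _)
    rw [ncard_coe_sub, ncard_coe_sub, hH, hL, pow_succ]
    have := Nat.pow_pos (n := s) hp.pos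
    nlinarith [hp.two_le]
  obtain ⟨K, ⟨hHK, hxK, hK⟩, -⟩ := hgood H hH x hxH
  have hLK : L ≤ K := by
    have h1 : H ≤ K ⊓ L := le_inf hHK hHL
    have h3 : Nat.card (K ⊓ L : AddSubgroup G) ∣ Nat.card L :=
      AddSubgroup.card_dvd_of_le inf_le_right
    rw [hL] at h3
    obtain ⟨j, hj, hj'⟩ := (Nat.dvd_prime_pow hp).1 h3
    have h4 : j = s + 1 := by
      by_contra hc
      have h5 : j ≤ s := by omega
      have h6 : Nat.card (K ⊓ L : AddSubgroup G) ≤ Nat.card H := by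
        rw [hj', hH]
        exact Nat.pow_le_pow_right hp.pos h5
      have h7 : H = K ⊓ L := AddSubgroup.eq_of_le_of_card_ge h1 h6
      exact hxH (h7 ▸ (⟨hxK, hxL⟩ : x ∈ K ⊓ L))
    have h5 : (K ⊓ L : AddSubgroup G) = L :=
      AddSubgroup.eq_of_le_of_card_ge inf_le_right (by rw [hj', h4, hL])
    exact inf_eq_right.1 h5
  refine ⟨K, ⟨hLK, hK⟩, ?_⟩
  rintro K' ⟨hLK', hK'⟩
  refine SetLike.coe_injective (h.eq_of hK' hK (T := (L : Set G)) hLK' hLK ?_)
  rw [ncard_coe_sub, hL]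
  exact hrs

end Pool.Agent.V7H65.SD
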