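import Pool.Agent.V7H65.SD.Odd
import Pool.Agent.V7H65.SD.Part

/-!
# Strength two: all blocks through the origin are subgroups
-/

set_option autoImplicit false
set_option linter.unusedSectionVars false

namespace Pool.Agent.V7H65.SD

variable {G : Type} [AddCommGroup G] [Finite G] {k : ℕ} {𝓑 : Set (Set G)}

theorem two_sym (h : IsSteiner 2 k 𝓑) (hT : TransInv 𝓑) (hN : NegInv 𝓑) {C : Set G}
    (hC : C ∈ 𝓑) {a b : G} (ha : a ∈ C) (hb : b ∈ C) (hab : a ≠ b) :
    ∀ z ∈ C, a + b - z ∈ C := by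
  refine refl_inv h hT hN (a + b) hC (T := {a, b}) ?_ ?_ ?_
  · intro z hz
    simp only [Set.mem_insert_iff, Set.mem_singleton_iff] at hz
    rcases hz with rfl | rfl <;> assumption
  · intro z hz
    simp only [Set.mem_insert_iff, Set.mem_singleton_iff] at hz
    rcases hz with rfl | rfl
    · rwa [add_sub_cancel_left]
    · rwa [add_sub_cancel_right]
  · rw [Set.ncard_pair hab]

/-- A block through `0` is closed under addition. -/
theorem two_add (h : IsSteiner 2 k 𝓑) (hT : TransInv 𝓑) (hN : NegInv 𝓑) (hk : 2 < k) {C : Set G}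
    (hC : C ∈ 𝓑) (h0 : (0 : G) ∈ C) {y z : G} (hy : y ∈ C) (hz : z ∈ C) : y + z ∈ C := by
  by_cases hy0 : y = 0
  · rw [hy0, zero_add]
    exact hz
  · obtain ⟨w, hw, hw'⟩ : ∃ w ∈ C, w ∉ ({0, y} : Set G) := by
      refine Set.exists_mem_notMem_of_ncard_lt_ncard ?_ (Set.toFinite _)
      rw [Set.ncard_pair (Ne.symm hy0), h.1 C hC]
      exact hk
    simp only [Set.mem_insert_iff, Set.mem_singleton_iff, not_or] at hw'
    obtain ⟨hw0, hwy⟩ := hw'
    have h1 := two_sym h hT hN hC h0 hw (Ne.symm hw0)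
    have h2 : w - y ∈ C := by
      have := h1 y hy
      rwa [zero_add] at this
    have h3 := two_sym h hT hN hC h0 h2 (by
      intro h4
      exact hwy (sub_eq_zero.1 h4.symm))
    have h4 := h1 _ (h3 z hz)
    have h5 : (0 : G) + w - (0 + (w - y) - z) = y + z := by abel
    rwa [h5] at h4

/-- The subgroup that a block through `0` is. -/
def blockSub (h : IsSteiner 2 k 𝓑) (hT : TransInv 𝓑) (hN : NegInv 𝓑) (hk : 2 < k) {C : Set G}
    (hC : C ∈ 𝓑) (h0 : (0 : G) ∈ C) : AddSubgroup G where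
  carrier := C
  zero_mem' := h0
  add_mem' := fun hy hz => two_add h hT hN hk hC h0 hy hz
  neg_mem' := by
    intro y hy
    by_cases hy0 : y = 0
    · rw [hy0, neg_zero]
      exact h0
    · have h1 := addOrderOf_pos y
      have h2 : ∀ m : ℕ, m • y ∈ C := by
        intro m
        induction m with
        | zero => rw [zero_nsmul]; exact h0
        | succ m ih =>
          rw [succ_nsmul]
          exact two_add h hT hN hk hC h0 ih hy
      have h3 : -y = (addOrderOf y - 1) • y := by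
        have h4 : addOrderOf y • y = 0 := addOrderOf_nsmul_eq_zero y
        obtain ⟨m, hm⟩ : ∃ m, addOrderOf y = m + 1 := ⟨addOrderOf y - 1, by omega⟩
        rw [hm, succ_nsmul] at h4
        rw [hm, Nat.add_sub_cancel]
        exact (eq_neg_of_add_eq_zero_left h4).symm
      show -y ∈ C
      rw [h3]
      exact h2 _

theorem exists_blockSub (h : IsSteiner 2 k 𝓑) (hT : TransInv 𝓑) (hN : NegInv 𝓑) (hk : 2 < k)
    {x : G} (hx : x ≠ 0) : ∃ K : AddSubgroup G, (K : Set G) ∈ 𝓑 ∧ x ∈ K := by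
  obtain ⟨C, ⟨hC, hC'⟩, -⟩ := h.2 {0, x} (Set.ncard_pair (Ne.symm hx))
  exact ⟨blockSub h hT hN hk hC (hC' (by simp)), hC, hC' (by simp)⟩

theorem blockSub_unique (h : IsSteiner 2 k 𝓑) {x : G} (hx : x ≠ 0) {K K' : AddSubgroup G}
    (hK : (K : Set G) ∈ 𝓑) (hK' : (K' : Set G) ∈ 𝓑) (hxK : x ∈ K) (hxK' : x ∈ K') : K = K' := by
  refine SetLike.coe_injective (h.eq_of hK hK' (T := {0, x}) ?_ ?_ ?_)
  · intro z hz
    simp only [Set.mem_insert_iff, Set.mem_singleton_iff] at hz
    rcases hz with rfl | rfl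
    · exact K.zero_mem
    · exact hxK
  · intro z hz
    simp only [Set.mem_insert_iff, Set.mem_singleton_iff] at hz
    rcases hz with rfl | rfl
    · exact K'.zero_mem
    · exact hxK'
  · rw [Set.ncard_pair (Ne.symm hx)]

end Pool.Agent.V7H65.SD
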